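import Pool.Agent.H72.AM5.StepLeft

/-! # Transport of the curve over a crossing at the wall; one period -/

set_option autoImplicit false

namespace Pool.Agent.H72.AM5

open Pool.Agent.H69.AMU Pool.Agent.H70.AG

variable {n : ℕ} {D : Dia n} {S Z : Finset (Fin n)} {U : ℤ → Fin n → Fin n → Bool}

lemma pull_replicate_succ {G : Type*} [Group G] (s : ℕ → G) (a l : ℕ) (e : Bool) :
    pull s a (List.replicate (l + 1) e) = sg s (a + l) e * pull s a (List.replicate l e) := by
  rw [List.replicate_succ, pull, List.length_replicate]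

lemma step_leave {c : ℕ} (h : Labels D S Z c U) (t : ℤ)
    (hi : D.pos t (D.rm t) + 1 = wall D Z t) :
    ∃ β : BraidGroup n,
      gen n (D.pos t (D.rm t)) * hb D S Z U (t + 1) = hb D S Z U t * β ∧
      Carries β (win D S Z t) (win D S Z (t + 1)) (S.card + c) := by
  obtain ⟨hlZ, hrZ, hw⟩ := wall_step_leave h.hZ hi
  have hwn := wall_lt (D := D) h.hZ t
  have hwin0 := win_add (D := D) h.hZ h.left t
  have hwin1 := win_add (D := D) h.hZ h.left (t + 1)
  have hrS : D.rm t ∉ S := fun hr => Labels.not_cross h.left t hr hlZ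
  set i := D.pos t (D.rm t) with hidef
  set Q := rl (row D t) i with hQ
  have hQl : Q.length = i := length_rl _ _
  have hr0 : reg D Z t = D.rm t :: Q := by
    unfold reg
    rw [← hi, rl, row_rm]
  have hr1 : reg D Z (t + 1) = Q := by
    unfold reg
    rw [hw]
    exact rl_congr fun j hj => row_step D t (by omega) (by omega)
  obtain ⟨e, hce, he⟩ := h.leave t hrS hrZ hlZ (by rw [D.adj]; exact hi)
  have hlab : HH (gen n) (inS S) (U (t + 1)) Q = HH (gen n) (inS S) (U t) Q := by
    apply HH_congr
    apply rl_pairwise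
    intro a b hab ha hk hy
    have hpa := pos_row D t (i := a) (by omega)
    have hk1 : row D t a ≠ D.rm t := by
      intro h1
      rw [h1] at hpa
      omega
    have hk2 : row D t a ≠ D.lm t := by
      intro h1
      rw [h1, D.adj] at hpa
      omega
    have hkZ : row D t a ∉ Z := by
      intro hz
      have := wall_le (D := D) (t := t) hz
      omega
    exact h.same t _ _ (inS_false.mp hk) hkZ (inS_true.mp hy) (fun h => hk1 h.1)
      (fun h => hk2 h.1) (fun h => hk1 h.1) (fun h => hk2 h.1)
  have hsig : sigs (inS S) (U t) (D.rm t) Q = List.replicate (ins (inS S) Q) e :=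
    sigs_replicate fun y _ hyS => he y hyS
  have hins : ins (inS S) Q = S.card := by
    rw [← hr1]
    exact ins_reg h.hZ h.left (t + 1)
  have hout : outs (inS S) Q = win D S Z (t + 1) := by
    unfold win
    rw [hr1]
  refine ⟨(pull (gen n) (outs (inS S) Q) (sigs (inS S) (U t) (D.rm t) Q))⁻¹ * gen n i, ?_, ?_⟩
  · unfold hb
    rw [hr1, hlab, hr0]
    have := case_leave (U := U t) (artinSeq_gen n) Q (inS_false.mpr hrS) (by omega)
    rw [hQl] at this
    exact this
  · rw [hsig, hins, hout]
    have e1 : win D S Z t = win D S Z (t + 1) + 1 := by omega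
    rw [e1]
    rcases h.cone with hc | ⟨hc, _⟩
    · subst hc
      rw [add_zero]
      exact ((carries_pull S.card (by omega) e).inv).mul (carries_gen_out (Or.inr (by omega)))
    · subst hc
      have h2 := hce le_rfl
      subst h2
      have h3 := (carries_pull (n := n) (a := win D S Z (t + 1)) (S.card + 1) (by omega) false).inv
      rw [pull_replicate_succ, mul_inv_rev] at h3
      have h4 : (sg (gen n) (win D S Z (t + 1) + S.card) false)⁻¹ = gen n i := by
        simp only [sg, Bool.false_eq_true, if_false, inv_inv]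
        congr 1
        omega
      rw [h4] at h3
      exact h3

lemma step_enter {c : ℕ} (h : Labels D S Z c U) (t : ℤ)
    (hi : D.pos t (D.rm t) = wall D Z t) (hlZ : D.lm t ∉ Z) :
    ∃ β : BraidGroup n,
      gen n (D.pos t (D.rm t)) * hb D S Z U (t + 1) = hb D S Z U t * β ∧
      Carries β (win D S Z t) (win D S Z (t + 1)) (S.card + c) := by
  have hrZ : D.rm t ∈ Z := by
    obtain ⟨z, hz, hz'⟩ := wall_spec (D := D) h.hZ t
    have : z = D.rm t := D.inj t (by rw [hz', hi])
    exact this ▸ hz
  have hw := wall_step_enter hlZ hrZ hi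
  have hwn := wall_lt (D := D) h.hZ t
  have hwn' := wall_lt (D := D) h.hZ (t + 1)
  have hwin0 := win_add (D := D) h.hZ h.left t
  have hwin1 := win_add (D := D) h.hZ h.left (t + 1)
  have hlS : D.lm t ∉ S := fun hl => by
    have := h.left t _ hl _ hrZ
    rw [D.adj] at this
    omega
  set i := D.pos t (D.rm t) with hidef
  set Q := reg D Z t with hQ
  have hQl : Q.length = i := by
    rw [hQ, hi]
    exact length_rl _ _
  have hr1 : reg D Z (t + 1) = D.lm t :: Q := by
    unfold reg
    rw [hw, rl, ← hi, row_succ_left, hQ]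
    unfold reg
    rw [← hi]
    congr 1
    exact rl_congr fun j hj => row_step D t (by omega) (by omega)
  have hlab : HH (gen n) (inS S) (U (t + 1)) Q = HH (gen n) (inS S) (U t) Q := by
    apply HH_congr
    rw [hQ]
    unfold reg
    apply rl_pairwise
    intro a b hab ha hk hy
    have hpa := pos_row D t (i := a) (by omega)
    have hk1 : row D t a ≠ D.rm t := by
      intro h1
      rw [h1] at hpa
      omega
    have hk2 : row D t a ≠ D.lm t := by
      intro h1
      rw [h1, D.adj] at hpa
      omega
    have hkZ : row D t a ∉ Z := by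
      intro hz
      have := wall_le (D := D) (t := t) hz
      omega
    exact h.same t _ _ (inS_false.mp hk) hkZ (inS_true.mp hy) (fun h => hk1 h.1)
      (fun h => hk2 h.1) (fun h => hk1 h.1) (fun h => hk2 h.1)
  have hsig : sigs (inS S) (U (t + 1)) (D.lm t) Q = List.replicate (ins (inS S) Q) true :=
    sigs_replicate fun y _ hyS => h.enter t hrZ hlS hlZ y hyS
  have hins : ins (inS S) Q = S.card := ins_reg h.hZ h.left t
  have hout : outs (inS S) Q = win D S Z t := rfl
  refine ⟨gen n i * pull (gen n) (outs (inS S) Q) (sigs (inS S) (U (t + 1)) (D.lm t) Q), ?_, ?_⟩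
  · have := case_enter (U := U (t + 1)) (artinSeq_gen n) Q (inS_false.mpr hlS) (by omega)
    rw [hQl, hlab] at this
    unfold hb
    rw [hr1]
    exact this
  · rw [hsig, hins, hout]
    have e1 : win D S Z (t + 1) = win D S Z t + 1 := by omega
    rw [e1]
    rcases h.cone with hc | ⟨hc, _⟩
    · subst hc
      rw [add_zero]
      exact (carries_gen_out (Or.inr (by omega))).mul (carries_pull S.card (by omega) true)
    · subst hc
      have h3 := carries_pull (n := n) (a := win D S Z t) (S.card + 1) (by omega) true
      rw [pull_replicate_succ] at h3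
      have h4 : sg (gen n) (win D S Z t + S.card) true = gen n i := by
        simp only [sg, if_true]
        congr 1
        omega
      rw [h4] at h3
      exact h3

/-- Transport of the curve over one crossing. -/
theorem step_all {c : ℕ} (h : Labels D S Z c U) (t : ℤ) :
    ∃ β : BraidGroup n,
      gen n (D.pos t (D.rm t)) * hb D S Z U (t + 1) = hb D S Z U t * β ∧
      Carries β (win D S Z t) (win D S Z (t + 1)) (S.card + c) := by
  rcases lt_trichotomy (D.pos t (D.rm t) + 1) (wall D Z t) with hi | hi | hi
  · exact step_left h t hi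
  · exact step_leave h t hi
  · rcases Nat.lt_or_ge (wall D Z t) (D.pos t (D.rm t)) with hj | hj
    · refine ⟨_, step_far h t (wall_step_right h.hZ hj) ?_⟩
      rcases h.cone with hc | ⟨hc, _⟩ <;> omega
    · have hij : D.pos t (D.rm t) = wall D Z t := by omega
      by_cases hlZ : D.lm t ∈ Z
      · refine ⟨_, step_far h t (wall_step_both hlZ hij) ?_⟩
        rcases h.cone with hc | ⟨_, hc⟩
        · omega
        · exfalso
          have hrZ : D.rm t ∈ Z := by
            obtain ⟨z, hz, hz'⟩ := wall_spec (D := D) h.hZ t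
            have : z = D.rm t := D.inj t (by rw [hz', hij])
            exact this ▸ hz
          exact rm_ne_lm D t (Finset.card_le_one.mp hc.le _ hrZ _ hlZ)
      · exact step_enter h t hij hlZ

/-- The braid of the first `m` crossings. -/
noncomputable def braidUpTo (D : Dia n) : ℕ → BraidGroup n
  | 0 => 1
  | m + 1 => braidUpTo D m * gen n (D.pos (m : ℤ) (D.rm (m : ℤ)))

/-- The braid of one period. -/
noncomputable def dbraid (D : Dia n) : BraidGroup n := braidUpTo D D.T

lemma transport {c : ℕ} (h : Labels D S Z c U) (m : ℕ) :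
    ∃ Γ : BraidGroup n, braidUpTo D m * hb D S Z U (m : ℤ) = hb D S Z U 0 * Γ ∧
      Carries Γ (win D S Z 0) (win D S Z (m : ℤ)) (S.card + c) := by
  induction m with
  | zero => exact ⟨1, by simp [braidUpTo], Carries.one _ _⟩
  | succ m ih =>
    obtain ⟨Γ, h1, h2⟩ := ih
    obtain ⟨β, h3, h4⟩ := step_all h (m : ℤ)
    refine ⟨Γ * β, ?_, ?_⟩
    · rw [braidUpTo]
      push_cast
      rw [mul_assoc, h3, ← mul_assoc, h1, mul_assoc]
    · push_cast
      exact h2.mul h4

/-- **The curve is invariant.** -/
theorem fixesCurve {c : ℕ} (h : Labels D S Z c U) (hper : ∀ t, U (t + D.T) = U t) :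
    FixesCurve (dbraid D) (hb D S Z U 0) (win D S Z 0) (S.card + c) := by
  obtain ⟨Γ, h1, h2⟩ := transport h D.T
  have hrow : ∀ t, row D (t + D.T) = row D t := by
    intro t
    funext i
    unfold row
    simp only [D.per_pos t]
  have hwall : ∀ t, wall D Z (t + D.T) = wall D Z t := by
    intro t
    unfold wall
    rw [D.per_pos t]
  have hreg : reg D Z ((D.T : ℕ) : ℤ) = reg D Z 0 := by
    have h3 := hrow 0
    have h4 := hwall 0
    rw [zero_add] at h3 h4
    unfold reg
    rw [h3, h4]
  have hU : U ((D.T : ℕ) : ℤ) = U 0 := by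
    have := hper 0
    rwa [zero_add] at this
  have hhb : hb D S Z U ((D.T : ℕ) : ℤ) = hb D S Z U 0 := by
    unfold hb
    rw [hreg, hU]
  have hwin : win D S Z ((D.T : ℕ) : ℤ) = win D S Z 0 := by
    unfold win
    rw [hreg]
  rw [hhb] at h1
  rw [hwin] at h2
  exact fixesCurve_of_carries h1 h2

end Pool.Agent.H72.AM5
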