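import Pool.Agent.H72.AM5.Row

/-! # The seven kinds of crossings -/

set_option autoImplicit false

namespace Pool.Agent.H72.AM5

open Pool.Agent.H69.AMU

variable {G : Type*} [Group G] {s : ℕ → G} {M : ℕ} {α : Type*} {S : α → Bool}
  {U : α → α → Bool}

lemma one_comm_pull (a : ℕ) (es : List Bool) : (1 : G) * pull s a es = pull s a es * 1 := by simp

/-- A strand `y` of `S` moves right over the outsider `k`, which has the label down. -/
lemma case_yk (hs : ArtinSeq s M) (P Q : List α) {y k : α} (hy : S y = true) (hk : S k = false)
    (hU : U k y = true) (hM : (P ++ k :: y :: Q).length ≤ M + 1) :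
    s Q.length * HH s S U (P ++ y :: k :: Q) = HH s S U (P ++ k :: y :: Q) := by
  have h0 := outs_add_ins (S := S) Q
  have hM' : P.length + Q.length + 1 ≤ M := by
    simp only [List.length_append, List.length_cons] at hM
    omega
  have key : s Q.length * HH s S U (y :: k :: Q) = HH s S U (k :: y :: Q) * 1 := by
    rw [HH_cons_in hy, HH_cons_out hk, HH_cons_out hk, HH_cons_in hy, outs_cons_in hy, mul_one,
      ← mul_assoc, HH_comm hs Q le_rfl (by omega), mul_assoc]
    congr 1
    have h1 : sigs S U k (y :: Q) = U k y :: sigs S U k Q := by simp [sigs, hy]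
    rw [h1, pull, length_sigs, h0, hU]
    simp [sg]
  have := HH_prefix (s := s) (S := S) (U := U) key
    (by rw [outs_cons_in hy, outs_cons_out hk, outs_cons_out hk, outs_cons_in hy])
    (fun x => by simp [sigs, hy, hk]) (fun a es _ _ => one_comm_pull a es) P hM
  rw [this, mul_one]

/-- The outsider `k` moves right over a strand `y` of `S`; afterwards it has the label up. -/
lemma case_ky (hs : ArtinSeq s M) (P Q : List α) {y k : α} (hy : S y = true) (hk : S k = false)
    (hU : U k y = false) (hM : (P ++ y :: k :: Q).length ≤ M + 1) :
    s Q.length * HH s S U (P ++ k :: y :: Q) = HH s S U (P ++ y :: k :: Q) := by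
  have h0 := outs_add_ins (S := S) Q
  have hM' : P.length + Q.length + 1 ≤ M := by
    simp only [List.length_append, List.length_cons] at hM
    omega
  have key : s Q.length * HH s S U (k :: y :: Q) = HH s S U (y :: k :: Q) * 1 := by
    rw [HH_cons_in hy, HH_cons_out hk, HH_cons_out hk, HH_cons_in hy, outs_cons_in hy, mul_one,
      ← mul_assoc, HH_comm hs Q le_rfl (by omega), mul_assoc]
    congr 1
    have h1 : sigs S U k (y :: Q) = U k y :: sigs S U k Q := by simp [sigs, hy]
    rw [h1, pull, length_sigs, h0, hU]
    simp [sg]
  have := HH_prefix (s := s) (S := S) (U := U) key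
    (by rw [outs_cons_in hy, outs_cons_out hk, outs_cons_out hk, outs_cons_in hy])
    (fun x => by simp [sigs, hy, hk]) (fun a es _ _ => one_comm_pull a es) P hM
  rw [this, mul_one]

/-- Two outsiders cross: `k` moves right over `k'`. -/
lemma case_kk (hs : ArtinSeq s M) (P Q : List α) {k k' : α} (hk : S k = false)
    (hk' : S k' = false) (hU : ∀ y ∈ Q, S y = true → U k y = true → U k' y = true)
    (hM : (P ++ k' :: k :: Q).length ≤ M + 1) :
    s Q.length * HH s S U (P ++ k :: k' :: Q) = HH s S U (P ++ k' :: k :: Q) * s (outs S Q) := by
  have h0 := outs_add_ins (S := S) Q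
  have hM' : P.length + Q.length + 1 ≤ M := by
    simp only [List.length_append, List.length_cons] at hM
    omega
  let es : List (Bool × Bool) := (Q.filter S).map fun y => (U k y, U k' y)
  have hes1 : es.map Prod.fst = sigs S U k Q := by simp [es, sigs]
  have hes2 : es.map Prod.snd = sigs S U k' Q := by simp [es, sigs]
  have hlen : es.length = ins S Q := by simp [es, ins]
  have hsl := pull_slide hs (a := outs S Q) es (by rw [hlen]; omega) (by
    intro p hp
    simp only [es, List.mem_map, List.mem_filter] at hp
    obtain ⟨y, ⟨hyQ, hyS⟩, rfl⟩ := hp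
    exact hU y hyQ hyS)
  rw [hes1, hes2, hlen, h0] at hsl
  have key : s Q.length * HH s S U (k :: k' :: Q) = HH s S U (k' :: k :: Q) * s (outs S Q) := by
    rw [HH_cons_out hk, HH_cons_out hk', HH_cons_out hk', HH_cons_out hk, outs_cons_out hk,
      outs_cons_out hk']
    have e1 : sigs S U k (k' :: Q) = sigs S U k Q := by simp [sigs, hk']
    have e2 : sigs S U k' (k :: Q) = sigs S U k' Q := by simp [sigs, hk]
    rw [e1, e2, ← mul_assoc, ← mul_assoc, HH_comm hs Q le_rfl (by omega)]
    calc HH s S U Q * s Q.length * pull s (outs S Q) (sigs S U k' Q)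
          * pull s (outs S Q + 1) (sigs S U k Q)
        = HH s S U Q * (s Q.length * pull s (outs S Q) (sigs S U k' Q)
          * pull s (outs S Q + 1) (sigs S U k Q)) := by group
      _ = _ := by
        rw [hsl]
        group
  refine HH_prefix key ?_ ?_ ?_ P hM
  · rw [outs_cons_out hk, outs_cons_out hk', outs_cons_out hk', outs_cons_out hk]
  · intro x
    simp [sigs, hk, hk']
  · intro a es ha hes
    rw [outs_cons_out hk', outs_cons_out hk] at ha
    have := pull_comm_lo hs (a := a) (j := outs S Q) es (by omega) hes true
    simpa [sg] using this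

/-- Two strands of `S` cross: `y` moves right over `y'`. -/
lemma case_yy (hs : ArtinSeq s M) (P Q : List α) {y y' : α} (hy : S y = true)
    (hy' : S y' = true) (hU : ∀ k ∈ P, S k = false → U k y = false → U k y' = false)
    (hM : (P ++ y' :: y :: Q).length ≤ M + 1) :
    s Q.length * HH s S U (P ++ y :: y' :: Q)
      = HH s S U (P ++ y' :: y :: Q) * s (outs S (P ++ Q) + ins S Q) := by
  have h0 := outs_add_ins (S := S) Q
  induction P with
  | nil =>
    have hM' : Q.length + 1 ≤ M := by
      simp only [List.nil_append, List.length_cons] at hM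
      omega
    rw [List.nil_append, List.nil_append, List.nil_append, HH_cons_in hy, HH_cons_in hy',
      HH_cons_in hy', HH_cons_in hy, h0]
    exact HH_comm hs Q le_rfl (by omega)
  | cons k P ih =>
    have hM' : P.length + Q.length + 2 ≤ M := by
      simp only [List.cons_append, List.length_append, List.length_cons] at hM
      omega
    have h1 := ih (fun k hk => hU k (by simp [hk]))
      (by simp only [List.length_append, List.length_cons]; omega)
    have hPQ := outs_add_ins (S := S) P
    cases hk : S k
    · rw [List.cons_append, List.cons_append, List.cons_append, HH_cons_out hk, HH_cons_out hk,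
        outs_cons_out hk, ← mul_assoc, h1, mul_assoc, mul_assoc]
      have e1 : outs S (P ++ y :: y' :: Q) = outs S (P ++ Q) := by
        rw [outs_append, outs_append, outs_cons_in hy, outs_cons_in hy']
      have e2 : outs S (P ++ y' :: y :: Q) = outs S (P ++ Q) := by
        rw [outs_append, outs_append, outs_cons_in hy', outs_cons_in hy]
      have e3 : sigs S U k (P ++ y :: y' :: Q)
          = sigs S U k P ++ U k y :: U k y' :: sigs S U k Q := by
        simp [sigs, hy, hy']
      have e4 : sigs S U k (P ++ y' :: y :: Q)
          = sigs S U k P ++ U k y' :: U k y :: sigs S U k Q := by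
        simp [sigs, hy, hy']
      have hin := pull_inner hs (a := outs S (P ++ Q)) (sigs S U k P) (sigs S U k Q)
        (e := U k y) (e' := U k y') (by
          rw [length_sigs, length_sigs, outs_append]
          omega) (hU k (by simp) hk)
      rw [length_sigs] at hin
      rw [e1, e2, e3, e4, hin]
      congr 3
      omega
    · rw [List.cons_append, List.cons_append, List.cons_append, HH_cons_in hk, HH_cons_in hk,
        outs_cons_in hk]
      exact h1

/-- The outsider `k` leaves the row to the right. -/
lemma case_leave (hs : ArtinSeq s M) (L : List α) {k : α} (hk : S k = false)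
    (hM : L.length < M) :
    s L.length * HH s S U L
      = HH s S U (k :: L) * ((pull s (outs S L) (sigs S U k L))⁻¹ * s L.length) := by
  rw [HH_cons_out hk, HH_comm hs L le_rfl hM]
  group

/-- The outsider `k` enters the row from the right. -/
lemma case_enter (hs : ArtinSeq s M) (L : List α) {k : α} (hk : S k = false)
    (hM : L.length < M) :
    s L.length * HH s S U (k :: L)
      = HH s S U L * (s L.length * pull s (outs S L) (sigs S U k L)) := by
  rw [HH_cons_out hk, ← mul_assoc, HH_comm hs L le_rfl hM, mul_assoc]

end Pool.Agent.H72.AM5
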