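import Mathlib
import Pool.Agent.H70.AG.Def

/-! # The row of a periodic diagram at a time -/

set_option autoImplicit false

namespace Pool.Agent.H72.AM5

open Pool.Agent.H70.AG

/-- The list `[f (m - 1), ..., f 0]`. -/
def rl {α : Type*} (f : ℕ → α) : ℕ → List α
  | 0 => []
  | m + 1 => f m :: rl f m

section rl
variable {α : Type*}

lemma length_rl (f : ℕ → α) (m : ℕ) : (rl f m).length = m := by
  induction m with
  | zero => rfl
  | succ m ih => simp [rl, ih]

lemma mem_rl {f : ℕ → α} {m : ℕ} {x : α} : x ∈ rl f m ↔ ∃ j, j < m ∧ f j = x := by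
  induction m with
  | zero => simp [rl]
  | succ m ih =>
    rw [rl, List.mem_cons, ih]
    constructor
    · rintro (h | ⟨j, h1, h2⟩)
      · exact ⟨m, by omega, h.symm⟩
      · exact ⟨j, by omega, h2⟩
    · rintro ⟨j, h1, h2⟩
      by_cases hj : j = m
      · subst hj
        exact Or.inl h2.symm
      · exact Or.inr ⟨j, by omega, h2⟩

lemma rl_congr {f f' : ℕ → α} {m : ℕ} (h : ∀ j, j < m → f' j = f j) : rl f' m = rl f m := by
  induction m with
  | zero => rfl
  | succ m ih => rw [rl, rl, h m (by omega), ih fun j hj => h j (by omega)]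

lemma rl_pairwise {f : ℕ → α} {m : ℕ} {R : α → α → Prop}
    (h : ∀ i j, j < i → i < m → R (f i) (f j)) : (rl f m).Pairwise R := by
  induction m with
  | zero => exact List.Pairwise.nil
  | succ m ih =>
    rw [rl, List.pairwise_cons]
    refine ⟨fun x hx => ?_, ih fun i j h1 h2 => h i j h1 (by omega)⟩
    obtain ⟨j, hj, rfl⟩ := mem_rl.mp hx
    exact h m j hj (by omega)

lemma rl_split {f : ℕ → α} {i m : ℕ} (hi : i + 2 ≤ m) :
    ∃ P : List α, (∀ x ∈ P, ∃ j, i + 2 ≤ j ∧ j < m ∧ f j = x) ∧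
      ∀ f' : ℕ → α, (∀ j, j ≠ i → j ≠ i + 1 → f' j = f j) →
        rl f' m = P ++ f' (i + 1) :: f' i :: rl f i := by
  induction m with
  | zero => omega
  | succ m ih =>
    by_cases h : i + 2 = m + 1
    · refine ⟨[], by simp, fun f' hf' => ?_⟩
      have hm : m = i + 1 := by omega
      subst hm
      rw [rl, rl, List.nil_append, rl_congr fun j hj => hf' j (by omega) (by omega)]
    · obtain ⟨P, hP, hf⟩ := ih (by omega)
      refine ⟨f m :: P, ?_, fun f' hf' => ?_⟩
      · intro x hx
        rw [List.mem_cons] at hx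
        rcases hx with rfl | hx
        · exact ⟨m, by omega, by omega, rfl⟩
        · obtain ⟨j, h1, h2, h3⟩ := hP x hx
          exact ⟨j, h1, by omega, h3⟩
      · rw [rl, hf f' hf', hf' m (by omega) (by omega), List.cons_append]

end rl

variable {n : ℕ} (D : Dia n)

lemma exists_pos (t : ℤ) {i : ℕ} (hi : i < n) : ∃ a, D.pos t a = i := by
  have hinj : Function.Injective fun a : Fin n => (⟨D.pos t a, D.lt t a⟩ : Fin n) := by
    intro a b h
    exact D.inj t (congrArg Fin.val h)
  obtain ⟨a, ha⟩ := (Finite.injective_iff_surjective.mp hinj) ⟨i, hi⟩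
  exact ⟨a, congrArg Fin.val ha⟩

open Classical in
/-- The strand at the position `i` at time `t`. -/
noncomputable def row (t : ℤ) (i : ℕ) : Fin n :=
  if h : ∃ a, D.pos t a = i then h.choose else D.lm 0

lemma pos_row (t : ℤ) {i : ℕ} (hi : i < n) : D.pos t (row D t i) = i := by
  have h := exists_pos D t hi
  rw [row, dif_pos h]
  exact h.choose_spec

lemma row_pos (t : ℤ) (a : Fin n) : row D t (D.pos t a) = a :=
  D.inj t (pos_row D t (D.lt t a))

lemma row_eq {t : ℤ} {a : Fin n} {i : ℕ} (h : D.pos t a = i) : row D t i = a := by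
  rw [← h, row_pos]

lemma row_of_le {t : ℤ} {i : ℕ} (hi : n ≤ i) : row D t i = D.lm 0 := by
  rw [row, dif_neg]
  rintro ⟨a, ha⟩
  have := D.lt t a
  omega

lemma rm_ne_lm (t : ℤ) : D.rm t ≠ D.lm t := by
  intro h
  have := D.adj t
  rw [h] at this
  omega

/-- The strands at the positions away from the crossing stay. -/
lemma row_step (t : ℤ) {j : ℕ} (h1 : j ≠ D.pos t (D.rm t)) (h2 : j ≠ D.pos t (D.rm t) + 1) :
    row D (t + 1) j = row D t j := by
  by_cases hj : j < n
  · obtain ⟨a, ha⟩ := exists_pos D t hj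
    have ha1 : a ≠ D.rm t := by
      rintro rfl
      exact h1 ha.symm
    have ha2 : a ≠ D.lm t := by
      rintro rfl
      rw [D.adj] at ha
      exact h2 ha.symm
    rw [row_eq D ha]
    apply row_eq
    rw [D.step t a ha2 ha1, ha]
  · rw [row_of_le D (by omega), row_of_le D (by omega)]

lemma row_rm (t : ℤ) : row D t (D.pos t (D.rm t)) = D.rm t := row_pos D t _

lemma row_lm (t : ℤ) : row D t (D.pos t (D.rm t) + 1) = D.lm t := by
  rw [← D.adj, row_pos]

lemma row_succ_left (t : ℤ) : row D (t + 1) (D.pos t (D.rm t)) = D.lm t :=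
  row_eq D (D.step_lm t)

lemma row_succ_right (t : ℤ) : row D (t + 1) (D.pos t (D.rm t) + 1) = D.rm t := by
  apply row_eq
  rw [D.step_rm, D.adj]

/-- The position of the leftmost strand of `Z`. -/
noncomputable def wall (Z : Finset (Fin n)) (t : ℤ) : ℕ := sInf (D.pos t '' (Z : Set (Fin n)))

variable {D}

lemma wall_spec {Z : Finset (Fin n)} (hZ : Z.Nonempty) (t : ℤ) :
    ∃ z ∈ Z, D.pos t z = wall D Z t := by
  have hne : (D.pos t '' (Z : Set (Fin n))).Nonempty := by
    obtain ⟨z, hz⟩ := hZ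
    exact ⟨_, z, hz, rfl⟩
  obtain ⟨z, hz, hz'⟩ := Nat.sInf_mem hne
  exact ⟨z, hz, hz'⟩

lemma wall_le {Z : Finset (Fin n)} {t : ℤ} {z : Fin n} (hz : z ∈ Z) :
    wall D Z t ≤ D.pos t z :=
  Nat.sInf_le ⟨z, hz, rfl⟩

lemma wall_lt {Z : Finset (Fin n)} (hZ : Z.Nonempty) (t : ℤ) : wall D Z t < n := by
  obtain ⟨z, _, hz⟩ := wall_spec (D := D) hZ t
  rw [← hz]
  exact D.lt t z

lemma wall_eq {Z : Finset (Fin n)} {t : ℤ} {m : ℕ} (h1 : ∃ z ∈ Z, D.pos t z = m)
    (h2 : ∀ z ∈ Z, m ≤ D.pos t z) : wall D Z t = m := by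
  obtain ⟨z, hz, hzm⟩ := h1
  obtain ⟨w, hw, hwm⟩ := wall_spec (D := D) ⟨z, hz⟩ t
  apply le_antisymm
  · rw [← hzm]
    exact wall_le hz
  · rw [← hwm]
    exact h2 w hw

/-- The wall does not move at a crossing to its left. -/
lemma wall_step_left {Z : Finset (Fin n)} (hZ : Z.Nonempty) {t : ℤ}
    (h : D.pos t (D.rm t) + 1 < wall D Z t) : wall D Z (t + 1) = wall D Z t := by
  have hpos : ∀ z ∈ Z, D.pos (t + 1) z = D.pos t z := by
    intro z hz
    have h1 := wall_le (D := D) (t := t) hz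
    apply D.step
    · rintro rfl
      rw [D.adj] at h1
      omega
    · rintro rfl
      omega
  obtain ⟨z, hz, hz'⟩ := wall_spec (D := D) hZ t
  apply wall_eq
  · exact ⟨z, hz, by rw [hpos z hz, hz']⟩
  · intro w hw
    rw [hpos w hw]
    exact wall_le hw

/-- The wall does not move at a crossing to its right. -/
lemma wall_step_right {Z : Finset (Fin n)} (hZ : Z.Nonempty) {t : ℤ}
    (h : wall D Z t < D.pos t (D.rm t)) : wall D Z (t + 1) = wall D Z t := by
  obtain ⟨z, hz, hz'⟩ := wall_spec (D := D) hZ t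
  apply wall_eq
  · refine ⟨z, hz, ?_⟩
    rw [D.step t z, hz']
    · rintro rfl
      rw [D.adj] at hz'
      omega
    · rintro rfl
      omega
  · intro w hw
    have h1 := wall_le (D := D) (t := t) hw
    by_cases hl : w = D.lm t
    · rw [hl, D.step_lm]
      omega
    · by_cases hr : w = D.rm t
      · rw [hr, D.step_rm, D.adj]
        omega
      · rw [D.step t w hl hr]
        exact h1

/-- Two strands of `Z` cross at the wall. -/
lemma wall_step_both {Z : Finset (Fin n)} {t : ℤ} (hl : D.lm t ∈ Z)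
    (h : D.pos t (D.rm t) = wall D Z t) : wall D Z (t + 1) = wall D Z t := by
  apply wall_eq
  · exact ⟨D.lm t, hl, by rw [D.step_lm, h]⟩
  · intro w hw
    have h1 := wall_le (D := D) (t := t) hw
    by_cases hl : w = D.lm t
    · rw [hl, D.step_lm]
      omega
    · by_cases hr : w = D.rm t
      · rw [hr, D.step_rm, D.adj]
        omega
      · rw [D.step t w hl hr]
        exact h1

/-- A strand outside `Z` enters the region left of the wall. -/
lemma wall_step_enter {Z : Finset (Fin n)} {t : ℤ} (hl : D.lm t ∉ Z) (hr : D.rm t ∈ Z)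
    (h : D.pos t (D.rm t) = wall D Z t) : wall D Z (t + 1) = wall D Z t + 1 := by
  apply wall_eq
  · exact ⟨D.rm t, hr, by rw [D.step_rm, D.adj, h]⟩
  · intro w hw
    have h1 := wall_le (D := D) (t := t) hw
    by_cases hwl : w = D.lm t
    · exact absurd (hwl ▸ hw) hl
    · by_cases hwr : w = D.rm t
      · rw [hwr, D.step_rm, D.adj]
        omega
      · rw [D.step t w hwl hwr]
        have h2 : D.pos t w ≠ D.pos t (D.rm t) := fun h => hwr (D.inj t h)
        omega

/-- A strand outside `Z` leaves the region left of the wall. -/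
lemma wall_step_leave {Z : Finset (Fin n)} (hZ : Z.Nonempty) {t : ℤ}
    (h : D.pos t (D.rm t) + 1 = wall D Z t) : D.lm t ∈ Z ∧ D.rm t ∉ Z ∧
      wall D Z (t + 1) = D.pos t (D.rm t) := by
  obtain ⟨z, hz, hz'⟩ := wall_spec (D := D) hZ t
  have hzl : z = D.lm t := D.inj t (by rw [hz', D.adj, h])
  have hrm : D.rm t ∉ Z := fun hr => by
    have := wall_le (D := D) (t := t) hr
    omega
  refine ⟨hzl ▸ hz, hrm, ?_⟩
  apply wall_eq
  · exact ⟨D.lm t, hzl ▸ hz, D.step_lm t⟩
  · intro w hw
    have h1 := wall_le (D := D) (t := t) hw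
    by_cases hwl : w = D.lm t
    · rw [hwl, D.step_lm]
    · by_cases hwr : w = D.rm t
      · exact absurd (hwr ▸ hw) hrm
      · rw [D.step t w hwl hwr]
        omega

end Pool.Agent.H72.AM5
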