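import Pool.Agent.H72.AM5.Order
import Pool.Agent.H72.AM5.StepWall

/-! # The labels of a rigid diagram satisfy the local rules -/

set_option autoImplicit false

namespace Pool.Agent.H72.AM5

open Pool.Agent.H69.AMU Pool.Agent.H70.AG

variable {n : ℕ} {D : Dia n}

open Classical in
/-- The labels: `true` means down. -/
noncomputable def lab (D : Dia n) (Z : Finset (Fin n)) (t : ℤ) (k y : Fin n) : Bool :=
  decide (¬ Up D Z t k y)

lemma lab_true {Z : Finset (Fin n)} {t : ℤ} {k y : Fin n} :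
    lab D Z t k y = true ↔ ¬ Up D Z t k y := by
  unfold lab
  simp

lemma lab_false {Z : Finset (Fin n)} {t : ℤ} {k y : Fin n} :
    lab D Z t k y = false ↔ Up D Z t k y := by
  unfold lab
  simp

/-- The situation: `Z` is to the right of `S`, all strands outside are linked with `S` and `Z` in
the same way, and two strands of `S` are linked or form a zero pair. -/
structure Sit (D : Dia n) (S Z : Finset (Fin n)) : Prop where
  rigid : D.Rigid
  hZ : Z.Nonempty
  left : ∀ t, ∀ y ∈ S, ∀ z ∈ Z, D.pos t y < D.pos t z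
  zp : ∀ y ∈ S, ∀ z ∈ Z, ∀ k, k ∉ S → k ∉ Z → D.ZP y z k
  pair : ∀ y ∈ S, ∀ y' ∈ S, y ≠ y' → ∀ k, k ∉ S → k ∉ Z →
    0 < D.lk y y' ∨ D.ZP y y' k ∨ D.ZP y' y k

variable {S Z : Finset (Fin n)}

lemma Sit.ne (h : Sit D S Z) {y z : Fin n} (hy : y ∈ S) (hz : z ∈ Z) : y ≠ z := by
  rintro rfl
  have := h.left 0 y hy y hz
  omega

lemma Sit.pos (h : Sit D S Z) {y z k : Fin n} (hy : y ∈ S) (hz : z ∈ Z) (hkS : k ∉ S)
    (hkZ : k ∉ Z) : 0 < D.lk k z := by
  have := h.zp y hy z hz k hkS hkZ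
  rw [← this.same]
  exact this.pos

/-- All labels agree when an outsider leaves the region. -/
lemma Sit.agree (h : Sit D S Z) {t : ℤ} {k z₀ y y' : Fin n} (hkS : k ∉ S) (hkZ : k ∉ Z)
    (hz₀ : z₀ ∈ Z) (hev : D.ev z₀ k t) (hwall : D.pos t z₀ = wall D Z t) (hy : y ∈ S)
    (hy' : y' ∈ S) (hup : Up D Z t k y') : Up D Z t k y := by
  by_contra hnup
  have hne : y ≠ y' := by
    rintro rfl
    exact hnup hup
  obtain ⟨z', hz', t₂, ht₂, hc₂, hn₂⟩ := not_up hz₀ (h.pos hy hz₀ hkS hkZ) hnup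
  have hadj : D.pos t z₀ = D.pos t k + 1 := by
    have := D.adj t
    rwa [hev.1, hev.2] at this
  have hright : ∀ x ∈ S, D.pos t x < D.pos t k := by
    intro x hx
    have h1 := h.left t x hx z₀ hz₀
    have h2 : D.pos t x ≠ D.pos t k := fun he => hkS (D.inj t he ▸ hx)
    omega
  rcases h.pair y hy y' hy' hne k hkS hkZ with hl | hzp | hzp
  · -- linked: rule A
    have hA := Dia.rule_A h.rigid (h.zp y hy z₀ hz₀ k hkS hkZ) (h.zp y hy z' hz' k hkS hkZ)
      (h.zp y' hy' z₀ hz₀ k hkS hkZ) (h.zp y' hy' z' hz' k hkS hkZ) hne hl t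
    have h1 : D.last k y z₀ t := Dia.rule_P4 h.rigid (h.zp y hy z₀ hz₀ k hkS hkZ) hev
    have h2 : ¬ D.last k y z' t := fun hl =>
      not_last_both (h.ne hy hz') ⟨hl, t₂, ht₂, hc₂, fun v h1 h2 =>
        ⟨(hn₂ v h1 h2).2 z' hz', (hn₂ v h1 h2).1⟩⟩
    have h3 : D.last k y' z₀ t := up_last hz₀ hup
    have h4 : D.last k y' z' t := up_last hz' hup
    exact h2 ((hA.mpr ⟨fun _ => h4, fun _ => h3⟩).mp h1)
  · -- `y` always left of `y'`
    obtain ⟨t₁, ht₁, hc₁, hn₁⟩ := hup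
    have h12 : t₂ < t₁ := by
      rcases lt_trichotomy t₂ t₁ with hlt | heq | hgt
      · exact hlt
      · subst heq
        exact absurd (cr_partner hc₁ hc₂) (h.ne hy' hz')
      · exact absurd hc₂ ((hn₁ t₂ hgt ht₂).2 z' hz')
    have hev₁ : D.ev y' k t₁ := cr_right ht₁ hc₁ (fun v h1 h2 => (hn₁ v h1 h2).1)
      (hright y' hy')
    obtain ⟨t₃, ht₃, hc₃, hn₃⟩ := Dia.rule_P4 h.rigid hzp hev₁
    have h32 : t₃ < t₂ := by
      rcases lt_trichotomy t₃ t₂ with hlt | heq | hgt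
      · exact hlt
      · subst heq
        exact absurd (cr_partner hc₃ hc₂) (h.ne hy hz')
      · exact absurd hc₃ (hn₂ t₃ hgt (by omega)).1
    -- at time `t₂` the strand `k` is left of `y'`
    have h4 : D.pos t₂ k < D.pos t₂ y' := by
      rw [order_interval (w := t₁) (by omega) fun v h1 h2 => by
        exact (hn₃ v (by omega) h2).2]
      have := D.adj t₁
      rw [hev₁.1, hev₁.2] at this
      omega
    have h5 := h.left t₂ y' hy' z' hz'
    rcases cr_adj hc₂ with h6 | h6 <;> omega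
  · -- `y'` always left of `y`
    obtain ⟨t₁, ht₁, hc₁, hn₁⟩ := hup
    have h12 : t₂ < t₁ := by
      rcases lt_trichotomy t₂ t₁ with hlt | heq | hgt
      · exact hlt
      · subst heq
        exact absurd (cr_partner hc₁ hc₂) (h.ne hy' hz')
      · exact absurd hc₂ ((hn₁ t₂ hgt ht₂).2 z' hz')
    have hev₁ : D.ev y' k t₁ := cr_right ht₁ hc₁ (fun v h1 h2 => (hn₁ v h1 h2).1)
      (hright y' hy')
    have h4 : D.pos t₁ k < D.pos t₁ y' := by
      have := D.adj t₁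
      rw [hev₁.1, hev₁.2] at this
      omega
    have h5 := hzp.left t₁
    have h6 : D.pos t₁ k < D.pos t₁ y := by omega
    rw [order_interval (w := t) (by omega) fun v h1 h2 => (hn₂ v (by omega) h2).1] at h6
    have := hright y hy
    omega

/-- **The labels of a rigid diagram.** -/
theorem Sit.labels (h : Sit D S Z) {c : ℕ} (hc : c = 0 ∨ c = 1 ∧ Z.card = 1) :
    Labels D S Z c (lab D Z) := by
  obtain ⟨z₁, hz₁⟩ := h.hZ
  refine ⟨h.hZ, h.left, ?_, ?_, ?_, ?_, ?_, ?_, ?_, hc⟩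
  · -- `y` moves right over `k`
    intro t hr hlS hlZ
    rw [lab_true]
    intro hup
    have h1 : D.last (D.lm t) z₁ (D.rm t) t :=
      Dia.rule_P3 h.rigid (h.zp _ hr z₁ hz₁ _ hlS hlZ) ⟨rfl, rfl⟩
    exact not_last_both (h.ne hr hz₁) ⟨up_last hz₁ hup, h1⟩
  · -- `k` moves right over `y`
    intro t hrS hrZ hl
    rw [lab_false]
    exact ⟨t, by omega, Or.inr ⟨rfl, rfl⟩, fun v h1 h2 => by omega⟩
  · -- two outsiders
    intro t hrS hrZ hlS hlZ hw y hy hpos hU
    rw [lab_true] at hU ⊢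
    intro hup
    obtain ⟨z, hz, u, hu, hcu, hnu⟩ := not_up hz₁ (h.pos hy hz₁ hrS hrZ) hU
    refine Dia.rule_S h.rigid (h.zp y hy z hz _ hrS hrZ) (h.zp y hy z hz _ hlS hlZ)
      (t := t) ⟨rfl, rfl⟩ hpos (lt_of_lt_of_le hw (wall_le hz)) ⟨up_last hz hup, ?_⟩
    exact ⟨u, hu, hcu, fun v h1 h2 => ⟨(hnu v h1 h2).2 z hz, (hnu v h1 h2).1⟩⟩
  · -- two strands of `S`
    intro t hr hl k hkS hkZ hpos hw hU
    rw [lab_false] at hU ⊢
    by_contra hnup
    obtain ⟨z, hz, u, hu, hcu, hnu⟩ := not_up hz₁ (h.pos hl hz₁ hkS hkZ) hnup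
    refine Dia.rule_G h.rigid (h.zp _ hl z hz _ hkS hkZ) (h.zp _ hr z hz _ hkS hkZ)
      (t := t) ⟨rfl, rfl⟩ hpos (lt_of_lt_of_le hw (wall_le hz)) ⟨up_last hz hU, ?_⟩
    exact ⟨u, hu, hcu, fun v h1 h2 => ⟨(hnu v h1 h2).2 z hz, (hnu v h1 h2).1⟩⟩
  · -- an outsider leaves
    intro t hrS hrZ hlZ hw
    rcases hc with hc | ⟨_, hcard⟩
    · by_cases hex : ∃ y ∈ S, Up D Z t (D.rm t) y
      · obtain ⟨y', hy', hup⟩ := hex
        refine ⟨false, fun _ => rfl, fun y hy => ?_⟩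
        rw [lab_false]
        exact h.agree hrS hrZ hlZ ⟨rfl, rfl⟩ hw hy hy' hup
      · push Not at hex
        exact ⟨true, fun h => by omega, fun y hy => lab_true.mpr (hex y hy)⟩
    · refine ⟨false, fun _ => rfl, fun y hy => ?_⟩
      rw [lab_false]
      by_contra hnup
      obtain ⟨z, hz, u, hu, hcu, hnu⟩ := not_up hlZ (h.pos hy hlZ hrS hrZ) hnup
      have hzz : z = D.lm t := Finset.card_le_one.mp hcard.le _ hz _ hlZ
      subst hzz
      exact not_last_both (h.ne hy hlZ) ⟨Dia.rule_P4 h.rigid (h.zp y hy _ hlZ _ hrS hrZ) ⟨rfl, rfl⟩,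
        u, hu, hcu, fun v h1 h2 => ⟨(hnu v h1 h2).2 _ hlZ, (hnu v h1 h2).1⟩⟩
  · -- an outsider enters
    intro t hrZ hlS hlZ y hy
    rw [lab_true]
    rintro ⟨u, hu, hcu, hnu⟩
    rcases lt_or_eq_of_le (show u ≤ t by omega) with hlt | heq
    · exact (hnu t hlt (by omega)).2 _ hrZ (Or.inl ⟨rfl, rfl⟩)
    · subst heq
      exact h.ne hy hrZ (cr_partner hcu (Or.inl ⟨rfl, rfl⟩))
  · -- nothing changes
    intro t k y hkS hkZ hy h1 h2 h3 h4
    have hcy : ¬ D.cr k y t := by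
      rintro (⟨ha, hb⟩ | ⟨ha, hb⟩)
      · exact h2 ⟨ha.symm, hb⟩
      · exact h1 ⟨hb.symm, ha⟩
    have hcz : ∀ z ∈ Z, ¬ D.cr k z t := by
      rintro z hz (⟨ha, hb⟩ | ⟨ha, hb⟩)
      · exact h4 ⟨ha.symm, hb ▸ hz⟩
      · exact h3 ⟨hb.symm, ha ▸ hz⟩
    have hiff : Up D Z (t + 1) k y ↔ Up D Z t k y := by
      constructor
      · rintro ⟨u, hu, hcu, hnu⟩
        have hut : u < t := by
          rcases lt_or_eq_of_le (show u ≤ t by omega) with hlt | heq
          · exact hlt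
          · subst heq
            exact absurd hcu hcy
        exact ⟨u, hut, hcu, fun v hv1 hv2 => hnu v hv1 (by omega)⟩
      · rintro ⟨u, hu, hcu, hnu⟩
        refine ⟨u, by omega, hcu, fun v hv1 hv2 => ?_⟩
        rcases lt_or_eq_of_le (show v ≤ t by omega) with hlt | heq
        · exact hnu v hv1 hlt
        · subst heq
          exact ⟨hcy, hcz⟩
    by_cases hup : Up D Z t k y
    · rw [lab_false.mpr hup, lab_false.mpr (hiff.mpr hup)]
    · rw [lab_true.mpr hup, lab_true.mpr (fun hh => hup (hiff.mp hh))]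

lemma up_per {t : ℤ} {k y : Fin n} : Up D Z (t + D.T) k y ↔ Up D Z t k y := by
  constructor
  · rintro ⟨u, hu, hc, hn⟩
    refine ⟨u - D.T, by omega, ?_, fun v h1 h2 => ?_⟩
    · rw [← cr_per, sub_add_cancel]
      exact hc
    · have := hn (v + D.T) (by omega) (by omega)
      rw [cr_per] at this
      refine ⟨this.1, fun z hz => ?_⟩
      have h3 := this.2 z hz
      rwa [cr_per] at h3
  · rintro ⟨u, hu, hc, hn⟩
    refine ⟨u + D.T, by omega, ?_, fun v h1 h2 => ?_⟩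
    · rw [cr_per]
      exact hc
    · have := hn (v - D.T) (by omega) (by omega)
      rw [← cr_per, sub_add_cancel] at this
      refine ⟨this.1, fun z hz => ?_⟩
      have h3 := this.2 z hz
      rwa [← cr_per, sub_add_cancel] at h3

lemma lab_per (t : ℤ) : lab D Z (t + D.T) = lab D Z t := by
  funext k y
  by_cases hup : Up D Z t k y
  · rw [lab_false.mpr hup, lab_false.mpr (up_per.mpr hup)]
  · rw [lab_true.mpr hup, lab_true.mpr (fun hh => hup (up_per.mp hh))]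

/-- The curve around `S` is invariant. -/
theorem Sit.fixesCurve (h : Sit D S Z) {c : ℕ} (hc : c = 0 ∨ c = 1 ∧ Z.card = 1) :
    ∃ (g : BraidGroup n) (a : ℕ), a + S.card < n ∧ FixesCurve (dbraid D) g a (S.card + c) := by
  refine ⟨hb D S Z (lab D Z) 0, win D S Z 0, ?_, Pool.Agent.H72.AM5.fixesCurve (h.labels hc) lab_per⟩
  rw [win_add h.hZ h.left]
  exact wall_lt h.hZ 0

/-- **Reducibility, first case**: `S` has at least two strands. -/
theorem Sit.reducible (h : Sit D S Z) (hS : 2 ≤ S.card) : Reducible (dbraid D) := by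
  obtain ⟨g, a, ha, hf⟩ := h.fixesCurve (c := 0) (Or.inl rfl)
  rw [add_zero] at hf
  refine ⟨g, a, S.card, hS, ?_, ha.le, hf⟩
  omega

/-- **Reducibility, second case**: `S` and `Z` have one strand each. -/
theorem Sit.reducible' (h : Sit D S Z) (hS : S.card = 1) (hZ : Z.card = 1) (hn : 3 ≤ n) :
    Reducible (dbraid D) := by
  obtain ⟨g, a, ha, hf⟩ := h.fixesCurve (c := 1) (Or.inr ⟨rfl, hZ⟩)
  rw [hS] at hf ha
  exact ⟨g, a, 2, le_rfl, by omega, by omega, hf⟩

end Pool.Agent.H72.AM5
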