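import Pool.Agent.H72.AM5.DiaRow
import Pool.Agent.H70.AG.Rules

/-! # Crossings, orders and last crossings in a periodic diagram -/

set_option autoImplicit false

namespace Pool.Agent.H72.AM5

open Pool.Agent.H70.AG

variable {n : ℕ} {D : Dia n}

lemma cr_comm {a b : Fin n} {t : ℤ} : D.cr a b t ↔ D.cr b a t := by
  unfold Dia.cr
  exact or_comm

lemma cr_partner {k y z : Fin n} {t : ℤ} (h1 : D.cr k y t) (h2 : D.cr k z t) : y = z := by
  have hne := rm_ne_lm D t
  unfold Dia.cr Dia.ev at h1 h2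
  rcases h1 with ⟨a, b⟩ | ⟨a, b⟩ <;> rcases h2 with ⟨c, d⟩ | ⟨c, d⟩
  · rw [← b, ← d]
  · exact absurd (d.trans a.symm) hne
  · exact absurd (b.trans c.symm) hne
  · rw [← a, ← c]

lemma cr_adj {a b : Fin n} {t : ℤ} (h : D.cr a b t) :
    D.pos t a = D.pos t b + 1 ∨ D.pos t b = D.pos t a + 1 := by
  have := D.adj t
  rcases h with ⟨h1, h2⟩ | ⟨h1, h2⟩
  · rw [h1, h2] at this
    exact Or.inl this
  · rw [h1, h2] at this
    exact Or.inr this

lemma not_cr_self {a : Fin n} {t : ℤ} : ¬ D.cr a a t := by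
  intro h
  rcases cr_adj h with h | h <;> omega

/-- The order of two strands changes only when they cross. -/
lemma order_step {a b : Fin n} {t : ℤ} (h : ¬ D.cr a b t) :
    D.pos t a < D.pos t b ↔ D.pos (t + 1) a < D.pos (t + 1) b := by
  by_cases hab : a = b
  · subst hab
    simp
  have hne : D.pos t a ≠ D.pos t b := fun h => hab (D.inj t h)
  have hadj := D.adj t
  have hl := D.step_lm t
  have hr := D.step_rm t
  unfold Dia.cr Dia.ev at h
  by_cases ha1 : a = D.lm t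
  · have hb1 : b ≠ D.lm t := fun hb => hab (ha1.trans hb.symm)
    have hb2 : b ≠ D.rm t := fun hb => h (Or.inl ⟨ha1.symm, hb.symm⟩)
    have hb3 : D.pos t b ≠ D.pos t (D.rm t) := fun hb => hb2 (D.inj t hb)
    rw [D.step t b hb1 hb2, ha1, hl]
    rw [ha1] at hne
    omega
  · by_cases ha2 : a = D.rm t
    · have hb1 : b ≠ D.rm t := fun hb => hab (ha2.trans hb.symm)
      have hb2 : b ≠ D.lm t := fun hb => h (Or.inr ⟨hb.symm, ha2.symm⟩)
      have hb3 : D.pos t b ≠ D.pos t (D.lm t) := fun hb => hb2 (D.inj t hb)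
      rw [D.step t b hb2 hb1, ha2, hr]
      rw [ha2] at hne
      omega
    · have ha3 : D.pos t a ≠ D.pos t (D.lm t) := fun hb => ha1 (D.inj t hb)
      have ha4 : D.pos t a ≠ D.pos t (D.rm t) := fun hb => ha2 (D.inj t hb)
      rw [D.step t a ha1 ha2]
      by_cases hb1 : b = D.lm t
      · rw [hb1, hl]
        omega
      · by_cases hb2 : b = D.rm t
        · rw [hb2, hr]
          omega
        · rw [D.step t b hb1 hb2]

lemma order_interval {a b : Fin n} {u w : ℤ} (huw : u ≤ w)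
    (h : ∀ v, u ≤ v → v < w → ¬ D.cr a b v) :
    D.pos u a < D.pos u b ↔ D.pos w a < D.pos w b := by
  obtain ⟨m, rfl⟩ : ∃ m : ℕ, w = u + m := ⟨(w - u).toNat, by omega⟩
  induction m with
  | zero => simp
  | succ m ih =>
    rw [ih (by omega) fun v h1 h2 => h v h1 (by push_cast; omega),
      order_step (h (u + m) (by omega) (by push_cast; omega))]
    push_cast
    rw [add_assoc]

/-- After `k` has crossed `y` for the last time it stays on the same side. -/
lemma cr_right {k y : Fin n} {u w : ℤ} (huw : u < w) (hc : D.cr k y u)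
    (h : ∀ v, u < v → v < w → ¬ D.cr k y v) (hw : D.pos w y < D.pos w k) : D.ev y k u := by
  rcases hc with hc | hc
  · exfalso
    obtain ⟨h1, h2⟩ := hc
    have h3 := D.step_lm u
    have h4 := D.step_rm u
    have h5 := D.adj u
    rw [h1] at h3
    rw [h2] at h4
    rw [h1] at h4
    rw [h2] at h3
    rw [h1, h2] at h5
    have h6 : D.pos (u + 1) k < D.pos (u + 1) y := by omega
    rw [order_interval (w := w) (by omega) (fun v h1 h2 => h v (by omega) h2)] at h6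
    omega
  · exact hc

lemma cr_per {a b : Fin n} (t : ℤ) : D.cr a b (t + D.T) ↔ D.cr a b t := by
  unfold Dia.cr Dia.ev
  rw [D.per_lm, D.per_rm]

lemma cr_per_sub {a b : Fin n} (t : ℤ) (m : ℕ) : D.cr a b (t - m * D.T) ↔ D.cr a b t := by
  induction m with
  | zero => simp
  | succ m ih =>
    rw [← ih, ← cr_per (t - ((m + 1 : ℕ) : ℤ) * D.T)]
    push_cast
    rw [show t - ((m : ℤ) + 1) * D.T + D.T = t - m * D.T by ring]

/-- Linked strands cross before any given time. -/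
lemma exists_cr_lt {a b : Fin n} (h : 0 < D.lk a b) (t : ℤ) : ∃ u < t, D.cr a b u := by
  unfold Dia.lk at h
  rw [Finset.card_pos] at h
  obtain ⟨i, hi⟩ := h
  rw [Finset.mem_filter, Finset.mem_range] at hi
  have hT : (0 : ℤ) < D.T := by exact_mod_cast D.hT
  refine ⟨(i : ℤ) - ((((i : ℤ) - t + 1).toNat : ℕ) : ℤ) * D.T, ?_, ?_⟩
  · have h1 : (i : ℤ) - t + 1 ≤ (((i : ℤ) - t + 1).toNat : ℤ) := Int.self_le_toNat _
    have h2 : (0 : ℤ) ≤ (((i : ℤ) - t + 1).toNat : ℤ) := Int.natCast_nonneg _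
    nlinarith
  · rw [cr_per_sub]
    exact Or.inr hi.2

/-- The last time before `t` with a given property. -/
lemma exists_last {P : ℤ → Prop} {t : ℤ} (h : ∃ u < t, P u) :
    ∃ u < t, P u ∧ ∀ v, u < v → v < t → ¬ P v := by
  obtain ⟨u, hu, hPu⟩ := h
  obtain ⟨m, ⟨hm1, hm2⟩, hm⟩ := Int.exists_greatest_of_bdd (P := fun u => u < t ∧ P u)
    ⟨t, fun z hz => hz.1.le⟩ ⟨u, hu, hPu⟩
  refine ⟨m, hm1, hm2, fun v hv1 hv2 hPv => ?_⟩
  have := hm v ⟨hv2, hPv⟩
  omega

/-- The label up: the last crossing of `k` with `y` or a strand of `Z` is with `y`. -/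
def Up (D : Dia n) (Z : Finset (Fin n)) (t : ℤ) (k y : Fin n) : Prop :=
  ∃ u < t, D.cr k y u ∧ ∀ v, u < v → v < t → ¬ D.cr k y v ∧ ∀ z ∈ Z, ¬ D.cr k z v

/-- If the label is not up, then the last crossing of `k` with `y` or a strand of `Z` is with a
strand of `Z`. -/
lemma not_up {Z : Finset (Fin n)} {t : ℤ} {k y z₀ : Fin n} (hz₀ : z₀ ∈ Z)
    (hlk : 0 < D.lk k z₀) (h : ¬ Up D Z t k y) :
    ∃ z ∈ Z, ∃ u < t, D.cr k z u ∧ ∀ v, u < v → v < t → ¬ D.cr k y v ∧ ∀ w ∈ Z, ¬ D.cr k w v := by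
  obtain ⟨u, hu, hPu, hlast⟩ := exists_last (P := fun v => D.cr k y v ∨ ∃ z ∈ Z, D.cr k z v)
    (t := t) (by
      obtain ⟨u, hu, hc⟩ := exists_cr_lt hlk t
      exact ⟨u, hu, Or.inr ⟨z₀, hz₀, hc⟩⟩)
  have hno : ∀ v, u < v → v < t → ¬ D.cr k y v ∧ ∀ w ∈ Z, ¬ D.cr k w v := fun v h1 h2 =>
    ⟨fun hc => hlast v h1 h2 (Or.inl hc), fun w hw hc => hlast v h1 h2 (Or.inr ⟨w, hw, hc⟩)⟩
  rcases hPu with hc | ⟨z, hz, hc⟩
  · exact absurd ⟨u, hu, hc, hno⟩ h
  · exact ⟨z, hz, u, hu, hc, hno⟩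

lemma up_last {Z : Finset (Fin n)} {t : ℤ} {k y z : Fin n} (hz : z ∈ Z) (h : Up D Z t k y) :
    D.last k y z t := by
  obtain ⟨u, hu, hc, hno⟩ := h
  exact ⟨u, hu, hc, fun v h1 h2 => ⟨(hno v h1 h2).1, (hno v h1 h2).2 z hz⟩⟩

/-- The last crossing cannot be both with `y` and with `z`. -/
lemma not_last_both {k y z : Fin n} {t : ℤ} (hyz : y ≠ z) :
    ¬ (D.last k y z t ∧ D.last k z y t) := by
  rintro ⟨⟨u, hu, hcu, hnu⟩, ⟨v, hv, hcv, hnv⟩⟩
  rcases lt_trichotomy u v with h | h | h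
  · exact (hnu v h hv).2 hcv
  · subst h
    exact hyz (cr_partner hcu hcv)
  · exact (hnv u h hu).2 hcu

end Pool.Agent.H72.AM5
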