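import Pool.Agent.H69.AMU.Coxeter

/-!
# Pulling the outsiders left past the strands of `S` (step (V) of proofs 346, MP_f2e6dc_gt)

Everything here takes place in a group with a sequence `s` satisfying Artin's relations.  A row of
strands is a list, read from right to left.  `dn = true` means that the pulled strand passes below
(a positive crossing), `false` that it passes above.
-/

set_option autoImplicit false

namespace Pool.Agent.H72.AM5

open Pool.Agent.H69.AMU

variable {G : Type*} [Group G] (s : ℕ → G) {M : ℕ}

/-- A signed generator. -/
def sg (i : ℕ) (e : Bool) : G := if e then s i else (s i)⁻¹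

/-- Pull a strand left past a block of `es.length` strands which begins at position `a`; the signs
are listed from right to left. -/
def pull (a : ℕ) : List Bool → G
  | [] => 1
  | e :: es => sg s (a + es.length) e * pull a es

variable {s}

lemma sg_comm (hs : ArtinSeq s M) {i j : ℕ} (hij : i + 2 ≤ j) (hj : j < M) (e e' : Bool) :
    sg s i e * sg s j e' = sg s j e' * sg s i e := by
  have h := hs.comm i j hij hj
  have h0 : Commute (s i) (s j) := h
  cases e <;> cases e'
  · simpa [sg] using h0.inv_inv.eq
  · simpa [sg] using h0.inv_left.eq
  · simpa [sg] using h0.inv_right.eq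
  · simpa [sg] using h0.eq

lemma pull_comm_hi (hs : ArtinSeq s M) {a j : ℕ} (es : List Bool) (hj : a + es.length + 1 ≤ j)
    (hM : j < M) (e : Bool) : sg s j e * pull s a es = pull s a es * sg s j e := by
  induction es with
  | nil => simp [pull]
  | cons e' es ih =>
    simp only [List.length_cons] at hj
    rw [pull, mul_assoc, ← ih (by omega), ← mul_assoc, ← mul_assoc,
      sg_comm hs (by omega) hM]

lemma pull_comm_lo (hs : ArtinSeq s M) {a j : ℕ} (es : List Bool) (hj : j + 2 ≤ a)
    (hM : a + es.length ≤ M) (e : Bool) : sg s j e * pull s a es = pull s a es * sg s j e := by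
  induction es with
  | nil => simp [pull]
  | cons e' es ih =>
    simp only [List.length_cons] at hM
    rw [pull, mul_assoc, ← ih (by omega), ← mul_assoc, ← mul_assoc,
      sg_comm hs (by omega) (by omega)]

/-- The local relation for two outsiders. -/
lemma local_slide (hs : ArtinSeq s M) {m : ℕ} (hm : m + 1 < M) {e e' : Bool}
    (h : e = true → e' = true) :
    s (m + 1) * sg s m e' * sg s (m + 1) e = sg s m e * sg s (m + 1) e' * s m := by
  have hb := hs.braid m hm
  cases e
  · cases e'
    · simp only [sg, Bool.false_eq_true, if_false]
      rw [eq_comm, ← mul_left_inj (s (m + 1)), ← mul_left_inj (s m)]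
      have : (s m)⁻¹ * (s (m + 1))⁻¹ * s m * s (m + 1) * s m
          = (s m)⁻¹ * (s (m + 1))⁻¹ * (s m * s (m + 1) * s m) := by group
      rw [this, hb]
      group
    · simp only [sg, Bool.false_eq_true, if_false, if_true]
      rw [eq_comm, ← mul_left_inj (s (m + 1)), ← mul_right_inj (s m)]
      have : s m * ((s m)⁻¹ * s (m + 1) * s m * s (m + 1)) = s (m + 1) * s m * s (m + 1) := by
        group
      rw [this, ← hb]
      group
  · have h' := h rfl
    subst h'
    simp only [sg, if_true]
    exact hb.symm

/-- The local relation for two strands of `S`. -/
lemma local_inner (hs : ArtinSeq s M) {m : ℕ} (hm : m + 1 < M) {e e' : Bool}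
    (h : e = false → e' = false) :
    s m * sg s (m + 1) e * sg s m e' = sg s (m + 1) e' * sg s m e * s (m + 1) := by
  have hb := hs.braid m hm
  cases e'
  · cases e
    · simp only [sg, Bool.false_eq_true, if_false]
      rw [eq_comm, ← mul_left_inj (s m), ← mul_left_inj (s (m + 1))]
      have : (s (m + 1))⁻¹ * (s m)⁻¹ * s (m + 1) * s m * s (m + 1)
          = (s (m + 1))⁻¹ * (s m)⁻¹ * (s (m + 1) * s m * s (m + 1)) := by group
      rw [this, ← hb]
      group
    · simp only [sg, Bool.false_eq_true, if_false, if_true]
      rw [eq_comm, ← mul_left_inj (s m), ← mul_right_inj (s (m + 1))]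
      have : s (m + 1) * ((s (m + 1))⁻¹ * s m * s (m + 1) * s m) = s m * s (m + 1) * s m := by
        group
      rw [this, hb]
      group
  · have he : e = true := by
      cases e
      · exact absurd (h rfl) (by decide)
      · rfl
    subst he
    simp only [sg, if_true]
    exact hb

/-- Two outsiders which cross to the right of a block can cross to the left of it. -/
lemma pull_slide (hs : ArtinSeq s M) {a : ℕ} (es : List (Bool × Bool))
    (hM : a + es.length < M) (h : ∀ p ∈ es, p.1 = true → p.2 = true) :
    s (a + es.length) * pull s a (es.map Prod.snd) * pull s (a + 1) (es.map Prod.fst)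
      = pull s a (es.map Prod.fst) * pull s (a + 1) (es.map Prod.snd) * s a := by
  induction es with
  | nil => simp [pull]
  | cons p es ih =>
    obtain ⟨e, e'⟩ := p
    simp only [List.length_cons] at hM
    have h1 : e = true → e' = true := h (e, e') (by simp)
    have h2 := ih (by omega) (fun p hp => h p (by simp [hp]))
    simp only [List.map_cons, pull, List.length_cons, List.length_map]
    have ei : a + (es.length + 1) = a + es.length + 1 := by omega
    have ei' : a + 1 + es.length = a + es.length + 1 := by omega
    rw [ei, ei']
    have c1 := pull_comm_hi hs (a := a) (j := a + es.length + 1) (es.map Prod.snd)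
      (by simp) (by omega) e
    have c2 := pull_comm_hi hs (a := a) (j := a + es.length + 1) (es.map Prod.fst)
      (by simp) (by omega) e'
    calc s (a + es.length + 1) * (sg s (a + es.length) e' * pull s a (es.map Prod.snd))
          * (sg s (a + es.length + 1) e * pull s (a + 1) (es.map Prod.fst))
        = s (a + es.length + 1) * sg s (a + es.length) e'
          * (pull s a (es.map Prod.snd) * sg s (a + es.length + 1) e)
          * pull s (a + 1) (es.map Prod.fst) := by group
      _ = (s (a + es.length + 1) * sg s (a + es.length) e' * sg s (a + es.length + 1) e)
          * pull s a (es.map Prod.snd) * pull s (a + 1) (es.map Prod.fst) := by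
        rw [← c1]
        group
      _ = sg s (a + es.length) e * sg s (a + es.length + 1) e' * (s (a + es.length)
          * pull s a (es.map Prod.snd) * pull s (a + 1) (es.map Prod.fst)) := by
        rw [local_slide hs (by omega) h1]
        group
      _ = sg s (a + es.length) e * (sg s (a + es.length + 1) e' * pull s a (es.map Prod.fst))
          * pull s (a + 1) (es.map Prod.snd) * s a := by
        rw [h2]
        group
      _ = sg s (a + es.length) e * pull s a (es.map Prod.fst)
          * (sg s (a + es.length + 1) e' * pull s (a + 1) (es.map Prod.snd)) * s a := by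
        rw [c2]
        group

/-- Two strands of `S` which cross before an outsider is pulled past them can cross afterwards. -/
lemma pull_inner (hs : ArtinSeq s M) {a : ℕ} (t2 t1 : List Bool) {e e' : Bool}
    (hM : a + t1.length + t2.length + 1 < M) (h : e = false → e' = false) :
    s (a + t1.length) * pull s a (t2 ++ e :: e' :: t1)
      = pull s a (t2 ++ e' :: e :: t1) * s (a + t1.length + 1) := by
  induction t2 with
  | nil =>
    simp only [List.nil_append, pull, List.length_cons]
    have ei : a + (t1.length + 1) = a + t1.length + 1 := by omega
    rw [ei]
    have c1 := pull_comm_hi hs (a := a) (j := a + t1.length + 1) t1 (by omega)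
      (by simp at hM; omega) true
    have c2 : s (a + t1.length + 1) * pull s a t1 = pull s a t1 * s (a + t1.length + 1) := by
      simpa [sg] using c1
    calc s (a + t1.length) * (sg s (a + t1.length + 1) e * (sg s (a + t1.length) e' * pull s a t1))
        = (s (a + t1.length) * sg s (a + t1.length + 1) e * sg s (a + t1.length) e')
          * pull s a t1 := by group
      _ = sg s (a + t1.length + 1) e' * sg s (a + t1.length) e
          * (s (a + t1.length + 1) * pull s a t1) := by
        rw [local_inner hs (by simp at hM; omega) h]
        group
      _ = _ := by
        rw [c2]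
        group
  | cons d t2 ih =>
    simp only [List.length_cons] at hM
    simp only [List.cons_append, pull]
    have hl : (t2 ++ e :: e' :: t1).length = t2.length + t1.length + 2 := by simp; omega
    have hl' : (t2 ++ e' :: e :: t1).length = t2.length + t1.length + 2 := by simp; omega
    rw [hl, hl']
    have c1 := sg_comm hs (i := a + t1.length) (j := a + (t2.length + t1.length + 2)) (by omega)
      (by omega) true d
    have c2 : s (a + t1.length) * sg s (a + (t2.length + t1.length + 2)) d
        = sg s (a + (t2.length + t1.length + 2)) d * s (a + t1.length) := by
      simpa [sg] using c1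
    rw [← mul_assoc, c2, mul_assoc, ih (by omega), mul_assoc]

end Pool.Agent.H72.AM5
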