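import Pool.Agent.H72.AM5.Pull

/-!
# The element `HH` of a row and its change at a crossing

A row is a list of strands read from right to left.  `HH` is the product (in time order) of the
pulls of all outsiders, from left to right, past all strands of `S` on their left.
-/

set_option autoImplicit false

namespace Pool.Agent.H72.AM5

open Pool.Agent.H69.AMU

variable {G : Type*} [Group G] (s : ℕ → G) {M : ℕ} {α : Type*} (S : α → Bool)
  (U : α → α → Bool)

/-- Number of outsiders in a row. -/
def outs (L : List α) : ℕ := (L.filter fun x => !S x).length

/-- Number of strands of `S` in a row. -/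
def ins (L : List α) : ℕ := (L.filter S).length

/-- The signs of the pull of `k` past the strands of `S` in the row `L`. -/
def sigs (k : α) (L : List α) : List Bool := (L.filter S).map (U k)

/-- The product of all pulls. -/
def HH : List α → G
  | [] => 1
  | x :: L => if S x then HH L else HH L * pull s (outs S L) (sigs S U x L)

variable {s S U}

lemma outs_add_ins (L : List α) : outs S L + ins S L = L.length := by
  induction L with
  | nil => simp [outs, ins]
  | cons x L ih =>
    unfold outs ins at *
    cases h : S x <;> simp [h] <;> omega

lemma outs_append (L L' : List α) : outs S (L ++ L') = outs S L + outs S L' := by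
  simp [outs]

lemma ins_append (L L' : List α) : ins S (L ++ L') = ins S L + ins S L' := by
  simp [ins]

lemma outs_cons_in {x : α} (hx : S x = true) (L : List α) : outs S (x :: L) = outs S L := by
  simp [outs, hx]

lemma outs_cons_out {x : α} (hx : S x = false) (L : List α) :
    outs S (x :: L) = outs S L + 1 := by
  simp [outs, hx]

lemma ins_cons_in {x : α} (hx : S x = true) (L : List α) : ins S (x :: L) = ins S L + 1 := by
  simp [ins, hx]

lemma ins_cons_out {x : α} (hx : S x = false) (L : List α) : ins S (x :: L) = ins S L := by
  simp [ins, hx]

lemma length_sigs (k : α) (L : List α) : (sigs S U k L).length = ins S L := by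
  simp [sigs, ins]

lemma HH_cons_in {x : α} (hx : S x = true) (L : List α) : HH s S U (x :: L) = HH s S U L := by
  simp [HH, hx]

lemma HH_cons_out {x : α} (hx : S x = false) (L : List α) :
    HH s S U (x :: L) = HH s S U L * pull s (outs S L) (sigs S U x L) := by
  simp [HH, hx]

/-- Only the labels of outsiders with respect to strands of `S` on their left matter. -/
lemma HH_congr {U U' : α → α → Bool} (L : List α)
    (h : L.Pairwise fun x w => S x = false → S w = true → U x w = U' x w) :
    HH s S U L = HH s S U' L := by
  induction L with
  | nil => rfl
  | cons x L ih =>
    rw [List.pairwise_cons] at h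
    cases hx : S x
    · rw [HH_cons_out hx, HH_cons_out hx, ih h.2]
      congr 2
      unfold sigs
      apply List.map_congr_left
      intro w hw
      rw [List.mem_filter] at hw
      exact h.1 w hw.1 hx hw.2
    · rw [HH_cons_in hx, HH_cons_in hx, ih h.2]

/-- `HH` commutes with the generators to the right of the row. -/
lemma HH_comm (hs : ArtinSeq s M) (L : List α) {j : ℕ} (hj : L.length ≤ j) (hM : j < M) :
    s j * HH s S U L = HH s S U L * s j := by
  induction L with
  | nil => simp [HH]
  | cons x L ih =>
    simp only [List.length_cons] at hj
    have h1 := ih (by omega)
    cases hx : S x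
    · have h2 := outs_add_ins (S := S) L
      have h3 := pull_comm_hi hs (a := outs S L) (j := j) (sigs S U x L)
        (by rw [length_sigs]; omega) hM true
      have h4 : s j * pull s (outs S L) (sigs S U x L) = pull s (outs S L) (sigs S U x L) * s j := by
        simpa [sg] using h3
      rw [HH_cons_out hx, ← mul_assoc, h1, mul_assoc, h4, mul_assoc]
    · rw [HH_cons_in hx]
      exact h1

/-- Extension of an identity `x * HH L' = HH L * y` by a prefix: the rows `L`, `L'` have the same
signs and `y` commutes with all further pulls. -/
lemma HH_prefix {L L' : List α} {x y : G}
    (h : x * HH s S U L' = HH s S U L * y)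
    (hout : outs S L' = outs S L)
    (hsig : ∀ k, sigs S U k L' = sigs S U k L)
    (hy : ∀ (a : ℕ) (es : List Bool), outs S L ≤ a → a + es.length ≤ M →
      y * pull s a es = pull s a es * y)
    (P : List α) (hP : (P ++ L).length ≤ M + 1) :
    x * HH s S U (P ++ L') = HH s S U (P ++ L) * y := by
  induction P with
  | nil => exact h
  | cons k P ih =>
    have hP' : (P ++ L).length ≤ M := by
      simp only [List.cons_append, List.length_cons] at hP
      omega
    have hP2 := outs_add_ins (S := S) (P ++ L)
    cases hk : S k
    · rw [List.cons_append, List.cons_append, HH_cons_out hk, HH_cons_out hk, ← mul_assoc,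
        ih (by omega), mul_assoc, mul_assoc]
      have e1 : outs S (P ++ L') = outs S (P ++ L) := by rw [outs_append, outs_append, hout]
      have e2 : sigs S U k (P ++ L') = sigs S U k (P ++ L) := by
        have := hsig k
        unfold sigs at this ⊢
        rw [List.filter_append, List.filter_append, List.map_append, List.map_append, this]
      rw [e1, e2, hy _ _ (by rw [outs_append]; omega) (by rw [length_sigs]; omega)]
    · rw [List.cons_append, List.cons_append, HH_cons_in hk, HH_cons_in hk]
      exact ih (by omega)

end Pool.Agent.H72.AM5
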