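import Pool.Agent.H72.AM5.Transport

/-! # Transport of the curve over a crossing inside the region -/

set_option autoImplicit false

namespace Pool.Agent.H72.AM5

open Pool.Agent.H69.AMU Pool.Agent.H70.AG

variable {n : ℕ} {D : Dia n} {S Z : Finset (Fin n)} {U : ℤ → Fin n → Fin n → Bool}

/-- Labels on the region do not change, except for the pair of the crossing. -/
lemma lab_same {c : ℕ} (h : Labels D S Z c U) (t : ℤ) (hi : D.pos t (D.rm t) + 1 < wall D Z t)
    {k y : Fin n} (hk : inS S k = false) (hy : inS S y = true) (hkZ : k ∉ Z)
    (h1 : ¬ (k = D.rm t ∧ D.lm t = y)) (h2 : ¬ (k = D.lm t ∧ D.rm t = y)) :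
    U (t + 1) k y = U t k y := by
  refine h.same t k y (inS_false.mp hk) hkZ (inS_true.mp hy) h1 h2 ?_ ?_
  · rintro ⟨_, hz⟩
    have := wall_le (D := D) (t := t) hz
    rw [D.adj] at this
    omega
  · rintro ⟨_, hz⟩
    have := wall_le (D := D) (t := t) hz
    omega

lemma step_left {c : ℕ} (h : Labels D S Z c U) (t : ℤ)
    (hi : D.pos t (D.rm t) + 1 < wall D Z t) :
    ∃ β : BraidGroup n,
      gen n (D.pos t (D.rm t)) * hb D S Z U (t + 1) = hb D S Z U t * β ∧
      Carries β (win D S Z t) (win D S Z (t + 1)) (S.card + c) := by
  have hw := wall_step_left h.hZ hi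
  have hwn := wall_lt (D := D) h.hZ t
  have hwin0 := win_add (D := D) h.hZ h.left t
  have hwin1 := win_add (D := D) h.hZ h.left (t + 1)
  set i := D.pos t (D.rm t) with hidef
  obtain ⟨P, hP, hf⟩ := rl_split (f := row D t) (i := i) (m := wall D Z t) (by omega)
  have hr0 : reg D Z t = P ++ D.lm t :: D.rm t :: rl (row D t) i := by
    unfold reg
    rw [hf (row D t) (fun _ _ _ => rfl), row_lm, row_rm]
  have hr1 : reg D Z (t + 1) = P ++ D.rm t :: D.lm t :: rl (row D t) i := by
    unfold reg
    rw [hw, hf (row D (t + 1)) (fun j h1 h2 => row_step D t h1 h2), row_succ_left,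
      row_succ_right]
  set Q := rl (row D t) i with hQ
  have hQl : Q.length = i := length_rl _ _
  have hlen : (reg D Z t).length = wall D Z t := length_rl _ _
  have hlen' : (reg D Z (t + 1)).length = wall D Z t := by
    rw [← hw]
    exact length_rl _ _
  have hlmw : D.pos t (D.lm t) < wall D Z t := by
    rw [D.adj]
    omega
  have hrZ : D.rm t ∉ Z := fun hz => by
    have := wall_le (D := D) (t := t) hz
    omega
  have hlZ : D.lm t ∉ Z := fun hz => by
    have := wall_le (D := D) (t := t) hz
    omega
  -- positions in the region at time `t`
  have hregZ : ∀ t' j, j < wall D Z t' → row D t' j ∉ Z := by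
    intro t' j hj hz
    have h1 := wall_le (D := D) (t := t') hz
    have h2 := wall_lt (D := D) h.hZ t'
    rw [pos_row D t' (by omega)] at h1
    omega
  by_cases hrS : D.rm t ∈ S
  · by_cases hlS : D.lm t ∈ S
    · -- both strands in `S`
      refine ⟨gen n (outs (inS S) (P ++ Q) + ins (inS S) Q), ?_, ?_⟩
      · have hlab : HH (gen n) (inS S) (U (t + 1)) (reg D Z (t + 1))
            = HH (gen n) (inS S) (U t) (reg D Z (t + 1)) := by
          apply HH_congr
          unfold reg
          apply rl_pairwise
          intro a b hab ha hk hy
          refine lab_same h t hi hk hy (hregZ _ _ ha) ?_ ?_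
          · rintro ⟨h1, _⟩
            rw [h1] at hk
            exact (inS_false.mp hk) hrS
          · rintro ⟨h1, _⟩
            rw [h1] at hk
            exact (inS_false.mp hk) hlS
        unfold hb
        rw [hlab, hr0, hr1]
        have := case_yy (U := U t) (artinSeq_gen n) P Q (inS_true.mpr hrS) (inS_true.mpr hlS) (by
          intro k hk hkS hkU
          obtain ⟨j, hj1, hj2, rfl⟩ := hP k hk
          refine h.yy t hrS hlS _ (inS_false.mp hkS) (hregZ _ _ hj2) ?_ ?_ hkU
          · rw [D.adj, pos_row D t (by omega)]
            omega
          · rw [pos_row D t (by omega)]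
            exact hj2) (by rw [← hr0, hlen]; omega)
        rw [hQl] at this
        exact this
      · have hwin : win D S Z (t + 1) = win D S Z t := by omega
        rw [hwin]
        have e1 : win D S Z t = outs (inS S) (P ++ Q) := by
          unfold win
          rw [hr0, outs_append, outs_append, outs_cons_in (inS_true.mpr hlS),
            outs_cons_in (inS_true.mpr hrS)]
        have e2 : S.card = ins (inS S) (P ++ Q) + 2 := by
          rw [← ins_reg (D := D) h.hZ h.left t, hr0, ins_append, ins_append,
            ins_cons_in (inS_true.mpr hlS), ins_cons_in (inS_true.mpr hrS)]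
          omega
        rw [ins_append] at e2
        apply carries_gen_in
        · omega
        · omega
    · -- `rm ∈ S`, `lm ∉ S`
      refine ⟨1, ?_, ?_⟩
      · have hlab : HH (gen n) (inS S) (U (t + 1)) (reg D Z (t + 1))
            = HH (gen n) (inS S) (U t) (reg D Z (t + 1)) := by
          apply HH_congr
          unfold reg
          apply rl_pairwise
          intro a b hab ha hk hy
          refine lab_same h t hi hk hy (hregZ _ _ ha) ?_ ?_
          · rintro ⟨h1, _⟩
            rw [h1] at hk
            exact (inS_false.mp hk) hrS
          · rintro ⟨h1, h2⟩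
            have h3 := pos_row D (t + 1) (i := a) (by omega)
            have h4 := pos_row D (t + 1) (i := b) (by omega)
            rw [h1, D.step_lm] at h3
            rw [← h2, D.step_rm, D.adj] at h4
            omega
        unfold hb
        rw [hlab, hr0, hr1, mul_one]
        have := case_yk (U := U t) (artinSeq_gen n) P Q (inS_true.mpr hrS) (inS_false.mpr hlS)
          (h.yk t hrS hlS hlZ) (by rw [← hr0, hlen]; omega)
        rw [hQl] at this
        exact this
      · have hwin : win D S Z (t + 1) = win D S Z t := by omega
        rw [hwin]
        exact Carries.one _ _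
  · by_cases hlS : D.lm t ∈ S
    · -- `rm ∉ S`, `lm ∈ S`
      refine ⟨1, ?_, ?_⟩
      · have hlab : HH (gen n) (inS S) (U t) (reg D Z t)
            = HH (gen n) (inS S) (U (t + 1)) (reg D Z t) := by
          apply HH_congr
          unfold reg
          apply rl_pairwise
          intro a b hab ha hk hy
          refine (lab_same h t hi hk hy (hregZ _ _ ha) ?_ ?_).symm
          · rintro ⟨h1, h2⟩
            have h3 := pos_row D t (i := a) (by omega)
            have h4 := pos_row D t (i := b) (by omega)
            rw [h1] at h3
            rw [← h2, D.adj] at h4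
            omega
          · rintro ⟨h1, _⟩
            rw [h1] at hk
            exact (inS_false.mp hk) hlS
        unfold hb
        rw [hlab, hr0, hr1, mul_one]
        have := case_ky (U := U (t + 1)) (artinSeq_gen n) P Q (inS_true.mpr hlS)
          (inS_false.mpr hrS) (h.ky t hrS hrZ hlS) (by rw [← hr0, hlen]; omega)
        rw [hQl] at this
        exact this
      · have hwin : win D S Z (t + 1) = win D S Z t := by omega
        rw [hwin]
        exact Carries.one _ _
    · -- both outsiders
      refine ⟨gen n (outs (inS S) Q), ?_, ?_⟩
      · have hlab : HH (gen n) (inS S) (U (t + 1)) (reg D Z (t + 1))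
            = HH (gen n) (inS S) (U t) (reg D Z (t + 1)) := by
          apply HH_congr
          unfold reg
          apply rl_pairwise
          intro a b hab ha hk hy
          refine lab_same h t hi hk hy (hregZ _ _ ha) ?_ ?_
          · rintro ⟨_, h1⟩
            rw [← h1] at hy
            exact hlS (inS_true.mp hy)
          · rintro ⟨_, h1⟩
            rw [← h1] at hy
            exact hrS (inS_true.mp hy)
        unfold hb
        rw [hlab, hr0, hr1]
        have := case_kk (U := U t) (artinSeq_gen n) P Q (inS_false.mpr hrS) (inS_false.mpr hlS) (by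
          intro y hy hyS hyU
          obtain ⟨j, hj1, rfl⟩ := mem_rl.mp hy
          refine h.kk t hrS hrZ hlS hlZ hlmw _ (inS_true.mp hyS) ?_ hyU
          rw [pos_row D t (by omega)]
          omega) (by rw [← hr0, hlen]; omega)
        rw [hQl] at this
        exact this
      · have hwin : win D S Z (t + 1) = win D S Z t := by omega
        rw [hwin]
        have e1 : win D S Z t = outs (inS S) P + outs (inS S) Q + 2 := by
          unfold win
          rw [hr0, outs_append, outs_cons_out (inS_false.mpr hlS),
            outs_cons_out (inS_false.mpr hrS)]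
          omega
        apply carries_gen_out
        left
        omega

end Pool.Agent.H72.AM5
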