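import Pool.Agent.H69.AMM.Artin
import Pool.Agent.H72.AM5.Pull

/-! # Braids which carry round windows to round windows -/

set_option autoImplicit false

namespace Pool.Agent.H72.AM5

open Pool.Agent.H69.AMU

variable {n : ℕ}

/-- `β` carries the round curve around `a', ..., a' + l - 1` to the round curve around
`a, ..., a + l - 1`. -/
def Carries (β : BraidGroup n) (a a' l : ℕ) : Prop :=
  IsConj (artin n β (roundLoop n a' l)) (roundLoop n a l)

lemma Carries.one (a l : ℕ) : Carries (1 : BraidGroup n) a a l := by
  unfold Carries
  rw [map_one]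
  exact IsConj.refl _

lemma Carries.mul {β γ : BraidGroup n} {a a' a'' l : ℕ} (h : Carries β a a' l)
    (h' : Carries γ a' a'' l) : Carries (β * γ) a a'' l := by
  unfold Carries at *
  rw [map_mul, MulAut.mul_apply]
  exact ((artin n β).toMonoidHom.map_isConj h').trans h

lemma Carries.inv {β : BraidGroup n} {a a' l : ℕ} (h : Carries β a a' l) :
    Carries β⁻¹ a' a l := by
  unfold Carries at *
  have h2 := (artin n β)⁻¹.toMonoidHom.map_isConj h.symm
  have e1 : (artin n β)⁻¹.toMonoidHom (artin n β (roundLoop n a' l)) = roundLoop n a' l :=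
    (artin n β).symm_apply_apply _
  rw [e1] at h2
  rw [map_inv]
  exact h2

lemma carries_gen_out {i a l : ℕ} (h : i + 1 < a ∨ a + l ≤ i) :
    Carries (gen n i) a a l := by
  by_cases hi : i < n - 1
  · unfold Carries
    rw [artin_gen hi, artinGen_roundLoop_out hi h]
  · rw [gen, dif_neg hi]
    exact Carries.one a l

lemma carries_gen_in {i a l : ℕ} (h1 : a ≤ i) (h2 : i + 1 < a + l) :
    Carries (gen n i) a a l := by
  by_cases hi : i < n - 1
  · unfold Carries
    rw [artin_gen hi, artinGen_roundLoop_in hi h1 h2]
  · rw [gen, dif_neg hi]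
    exact Carries.one a l

lemma artin_gen_inv_fgen {i : ℕ} (hi : i < n - 1) (j : ℕ) :
    artin n (gen n i)⁻¹ (fgen n j) = if j = i then fgen n (i + 1)
      else if j = i + 1 then (fgen n (i + 1))⁻¹ * fgen n i * fgen n (i + 1) else fgen n j := by
  have h : ∀ x y : FreeGroup (Fin n), artin n (gen n i) y = x → artin n (gen n i)⁻¹ x = y := by
    intro x y hxy
    rw [← hxy, map_inv]
    exact (artin n (gen n i)).symm_apply_apply _
  have h0 : ∀ j, artin n (gen n i) (fgen n j)
      = if j = i then fgen n i * fgen n (i + 1) * (fgen n i)⁻¹
        else if j = i + 1 then fgen n i else fgen n j := by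
    intro j
    rw [artin_gen hi, artinGen_fgen hi]
  apply h
  by_cases h1 : j = i
  · rw [if_pos h1, h0, if_neg (by omega), if_pos rfl, h1]
  · by_cases h2 : j = i + 1
    · rw [if_neg h1, if_pos h2, map_mul, map_mul, map_inv, h0, h0, if_neg (by omega), if_pos rfl,
        if_pos rfl, h2]
      group
    · rw [if_neg h1, if_neg h2, h0, if_neg h1, if_neg h2]

/-- A pull below does not change generators far to the right. -/
lemma artin_pull_fgen {a : ℕ} (es : List Bool) {j : ℕ} (hj : a + es.length < j)
    (hn : a + es.length ≤ n - 1) :
    artin n (pull (gen n) a es) (fgen n j) = fgen n j := by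
  induction es with
  | nil => simp [pull]
  | cons e es ih =>
    simp only [List.length_cons] at hj hn
    rw [pull, map_mul, MulAut.mul_apply, ih (by omega) (by omega)]
    have hi : a + es.length < n - 1 := by omega
    cases e
    · simp only [sg, Bool.false_eq_true, if_false]
      rw [artin_gen_inv_fgen hi, if_neg (by omega), if_neg (by omega)]
    · simp only [sg, if_true]
      rw [artin_gen hi, artinGen_fgen hi, if_neg (by omega), if_neg (by omega)]

lemma artin_gen_inv_roundLoop_out {i a l : ℕ} (hi : i < n - 1) (h : i + 1 < a ∨ a + l ≤ i) :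
    artin n (gen n i)⁻¹ (roundLoop n a l) = roundLoop n a l := by
  have h1 : artin n (gen n i) (roundLoop n a l) = roundLoop n a l := by
    rw [artin_gen hi, artinGen_roundLoop_out hi h]
  conv_lhs => rw [← h1]
  rw [map_inv]
  exact (artin n (gen n i)).symm_apply_apply _

lemma artin_pull_true {a : ℕ} (l : ℕ) (hn : a + l ≤ n - 1) :
    artin n (pull (gen n) a (List.replicate l true)) (roundLoop n (a + 1) l)
      = roundLoop n a l := by
  induction l with
  | zero => simp [pull, roundLoop]
  | succ l ih =>
    have hi : a + l < n - 1 := by omega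
    rw [List.replicate_succ, pull, List.length_replicate, map_mul, MulAut.mul_apply, roundLoop,
      map_mul, ih (by omega), artin_pull_fgen _ (by rw [List.length_replicate]; omega) (by rw [List.length_replicate]; omega)]
    simp only [sg, if_true]
    rw [map_mul, artin_gen hi, artinGen_roundLoop_out hi (Or.inr le_rfl), artinGen_fgen hi,
      if_neg (by omega), if_pos (by omega), roundLoop]

lemma artin_pull_false {a : ℕ} (l : ℕ) (hn : a + l ≤ n - 1) :
    artin n (pull (gen n) a (List.replicate l false)) (roundLoop n (a + 1) l)
      = (fgen n (a + l))⁻¹ * roundLoop n a l * fgen n (a + l) := by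
  induction l with
  | zero => simp [pull, roundLoop]
  | succ l ih =>
    have hi : a + l < n - 1 := by omega
    rw [List.replicate_succ, pull, List.length_replicate, map_mul, MulAut.mul_apply, roundLoop,
      map_mul, ih (by omega), artin_pull_fgen _ (by rw [List.length_replicate]; omega) (by rw [List.length_replicate]; omega)]
    simp only [sg, Bool.false_eq_true, if_false]
    have e1 : a + 1 + l = a + l + 1 := by omega
    rw [e1, map_mul, map_mul, map_mul, map_inv (artin n (gen n (a + l))⁻¹),
      artin_gen_inv_roundLoop_out hi (Or.inr le_rfl), artin_gen_inv_fgen hi,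
      artin_gen_inv_fgen hi, if_pos rfl, if_neg (by omega), if_pos rfl, roundLoop,
      show a + (l + 1) = a + l + 1 by omega]
    group

/-- A strand passes a block, all of it below or all of it above. -/
lemma carries_pull {a : ℕ} (l : ℕ) (hn : a + l ≤ n - 1) (e : Bool) :
    Carries (pull (gen n) a (List.replicate l e)) a (a + 1) l := by
  unfold Carries
  cases e
  · rw [artin_pull_false l hn]
    rw [isConj_iff]
    exact ⟨fgen n (a + l), by group⟩
  · rw [artin_pull_true l hn]

lemma fixesCurve_of_carries {β h γ : BraidGroup n} {a l : ℕ} (e : β * h = h * γ)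
    (hγ : Carries γ a a l) : FixesCurve β h a l := by
  unfold FixesCurve
  have : h⁻¹ * β * h = γ := by
    rw [mul_assoc, e]
    group
  rw [this]
  exact hγ

end Pool.Agent.H72.AM5
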