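import Pool.Agent.H72.AM5.Cases
import Pool.Agent.H72.AM5.Win
import Pool.Agent.H72.AM5.DiaRow

/-! # Transport of the curve over one crossing -/

set_option autoImplicit false

namespace Pool.Agent.H72.AM5

open Pool.Agent.H69.AMU Pool.Agent.H70.AG

variable {n : ℕ} {D : Dia n} {S Z : Finset (Fin n)} {U : ℤ → Fin n → Fin n → Bool}

/-- Labels of the outsiders with the local rules.  `U t k y = true` means down.  The number `c` is
`0` (window around `S`) or `1` (window around `S` and the only strand of `Z`). -/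
structure Labels (D : Dia n) (S Z : Finset (Fin n)) (c : ℕ) (U : ℤ → Fin n → Fin n → Bool) :
    Prop where
  hZ : Z.Nonempty
  left : ∀ t, ∀ y ∈ S, ∀ z ∈ Z, D.pos t y < D.pos t z
  yk : ∀ t, D.rm t ∈ S → D.lm t ∉ S → D.lm t ∉ Z → U t (D.lm t) (D.rm t) = true
  ky : ∀ t, D.rm t ∉ S → D.rm t ∉ Z → D.lm t ∈ S → U (t + 1) (D.rm t) (D.lm t) = false
  kk : ∀ t, D.rm t ∉ S → D.rm t ∉ Z → D.lm t ∉ S → D.lm t ∉ Z →
    D.pos t (D.lm t) < wall D Z t → ∀ y ∈ S, D.pos t y < D.pos t (D.rm t) →
    U t (D.rm t) y = true → U t (D.lm t) y = true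
  yy : ∀ t, D.rm t ∈ S → D.lm t ∈ S → ∀ k, k ∉ S → k ∉ Z → D.pos t (D.lm t) < D.pos t k →
    D.pos t k < wall D Z t → U t k (D.rm t) = false → U t k (D.lm t) = false
  leave : ∀ t, D.rm t ∉ S → D.rm t ∉ Z → D.lm t ∈ Z → D.pos t (D.lm t) = wall D Z t →
    ∃ e : Bool, (1 ≤ c → e = false) ∧ ∀ y ∈ S, U t (D.rm t) y = e
  enter : ∀ t, D.rm t ∈ Z → D.lm t ∉ S → D.lm t ∉ Z → ∀ y ∈ S, U (t + 1) (D.lm t) y = true
  same : ∀ t k y, k ∉ S → k ∉ Z → y ∈ S → ¬ (k = D.rm t ∧ D.lm t = y) →
    ¬ (k = D.lm t ∧ D.rm t = y) → ¬ (k = D.rm t ∧ D.lm t ∈ Z) → ¬ (k = D.lm t ∧ D.rm t ∈ Z) →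
    U (t + 1) k y = U t k y
  cone : c = 0 ∨ c = 1 ∧ Z.card = 1

/-- Membership in `S` as a boolean. -/
def inS (S : Finset (Fin n)) (x : Fin n) : Bool := decide (x ∈ S)

lemma inS_true {x : Fin n} : inS S x = true ↔ x ∈ S := by simp [inS]

lemma inS_false {x : Fin n} : inS S x = false ↔ x ∉ S := by simp [inS]

/-- The region left of the wall, read from right to left. -/
noncomputable def reg (D : Dia n) (Z : Finset (Fin n)) (t : ℤ) : List (Fin n) :=
  rl (row D t) (wall D Z t)

/-- All strands of `S` are in the region. -/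
lemma ins_reg (hZ : Z.Nonempty) (left : ∀ t, ∀ y ∈ S, ∀ z ∈ Z, D.pos t y < D.pos t z) (t : ℤ) :
    ins (inS S) (reg D Z t) = S.card := by
  have hnd : ((reg D Z t).filter (inS S)).Nodup := by
    apply List.Nodup.filter
    unfold reg
    rw [List.Nodup]
    apply rl_pairwise
    intro i j hji hi h
    have hw := wall_lt (D := D) hZ t
    have h1 := congrArg (D.pos t) h
    rw [pos_row D t (by omega), pos_row D t (by omega)] at h1
    omega
  have hset : ((reg D Z t).filter (inS S)).toFinset = S := by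
    ext x
    rw [List.mem_toFinset, List.mem_filter, inS_true]
    constructor
    · exact fun h => h.2
    · intro hx
      refine ⟨?_, hx⟩
      unfold reg
      rw [mem_rl]
      obtain ⟨z, hz, hz'⟩ := wall_spec (D := D) hZ t
      exact ⟨D.pos t x, by rw [← hz']; exact left t x hx z hz, row_pos D t x⟩
  have h1 := List.toFinset_card_of_nodup hnd
  rw [hset] at h1
  exact h1.symm

/-- The conjugating braid at time `t`. -/
noncomputable def hb (D : Dia n) (S Z : Finset (Fin n)) (U : ℤ → Fin n → Fin n → Bool) (t : ℤ) :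
    BraidGroup n :=
  HH (gen n) (inS S) (U t) (reg D Z t)

/-- The left end of the window at time `t`. -/
noncomputable def win (D : Dia n) (S Z : Finset (Fin n)) (t : ℤ) : ℕ := outs (inS S) (reg D Z t)

lemma win_add (hZ : Z.Nonempty) (left : ∀ t, ∀ y ∈ S, ∀ z ∈ Z, D.pos t y < D.pos t z) (t : ℤ) :
    win D S Z t + S.card = wall D Z t := by
  have h1 := outs_add_ins (S := inS S) (reg D Z t)
  rw [ins_reg hZ left] at h1
  unfold win
  rw [h1, reg, length_rl]

lemma sigs_replicate {U : Fin n → Fin n → Bool} {k : Fin n} {L : List (Fin n)} {e : Bool}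
    (h : ∀ y ∈ L, y ∈ S → U k y = e) :
    sigs (inS S) U k L = List.replicate (ins (inS S) L) e := by
  rw [List.eq_replicate_iff]
  refine ⟨length_sigs k L, ?_⟩
  intro b hb
  simp only [sigs, List.mem_map, List.mem_filter] at hb
  obtain ⟨y, ⟨hy, hyS⟩, rfl⟩ := hb
  exact h y hy (inS_true.mp hyS)

/-- Strands of `S` and of `Z` never cross. -/
lemma Labels.not_cross (left : ∀ t, ∀ y ∈ S, ∀ z ∈ Z, D.pos t y < D.pos t z) (t : ℤ)
    (h1 : D.rm t ∈ S) (h2 : D.lm t ∈ Z) : False := by
  have h3 := left (t + 1) _ h1 _ h2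
  rw [D.step_rm, D.step_lm, D.adj] at h3
  omega

/-- A crossing which changes neither the region nor the labels in it. -/
lemma step_far {c : ℕ} (h : Labels D S Z c U) (t : ℤ) (hw : wall D Z (t + 1) = wall D Z t)
    (hi : wall D Z t + c ≤ D.pos t (D.rm t)) :
    gen n (D.pos t (D.rm t)) * hb D S Z U (t + 1)
      = hb D S Z U t * gen n (D.pos t (D.rm t)) ∧
    Carries (gen n (D.pos t (D.rm t))) (win D S Z t) (win D S Z (t + 1)) (S.card + c) := by
  have hreg : reg D Z (t + 1) = reg D Z t := by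
    unfold reg
    rw [hw]
    apply rl_congr
    intro j hj
    exact row_step D t (by omega) (by omega)
  have hlab : HH (gen n) (inS S) (U (t + 1)) (reg D Z t) = HH (gen n) (inS S) (U t) (reg D Z t) := by
    apply HH_congr
    unfold reg
    apply rl_pairwise
    intro i j hji hi' hk hy
    have hw' := wall_lt (D := D) h.hZ t
    have hpi := pos_row D t (i := i) (by omega)
    have hkr : row D t i ≠ D.rm t := by
      intro he
      rw [he] at hpi
      omega
    have hkl : row D t i ≠ D.lm t := by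
      intro he
      rw [he, D.adj] at hpi
      omega
    have hkZ : row D t i ∉ Z := by
      intro hz
      have := wall_le (D := D) (t := t) hz
      omega
    exact h.same t _ _ (inS_false.mp hk) hkZ (inS_true.mp hy) (fun h => hkr h.1)
      (fun h => hkl h.1) (fun h => hkr h.1) (fun h => hkl h.1)
  have hin : D.pos t (D.rm t) < n - 1 := by
    have h1 := D.lt t (D.lm t)
    rw [D.adj] at h1
    omega
  constructor
  · unfold hb
    rw [hreg, hlab]
    apply HH_comm (artinSeq_gen n) _ _ hin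
    unfold reg
    rw [length_rl]
    omega
  · have hwin : win D S Z (t + 1) = win D S Z t := by
      unfold win
      rw [hreg]
    rw [hwin]
    apply carries_gen_out
    right
    have := win_add (D := D) h.hZ h.left t
    omega

end Pool.Agent.H72.AM5
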